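import Mathlib

/-! The damped triple sum and the statement of its power saving. -/

open Finset

namespace Pool.Agent.MP_74e98a_nt.H75

/-- the kernel `x exp(-π (σ + i λ) x ^ 2)` -/
noncomputable def ker (sig lam x : ℝ) : ℂ :=
  (x : ℂ) * Complex.exp (-(Real.pi * ((sig : ℂ) + lam * Complex.I) * (x : ℂ) ^ 2))

/-- the triple sum with weights `φ (L i - log n)` -/
noncomputable def triple (φ : ℝ → ℝ) (sig lam L1 L2 L3 : ℝ) (N : ℕ) : ℂ :=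
  ∑ a ∈ Icc 1 N, ∑ b ∈ Icc 1 N, ∑ c ∈ Icc 1 N,
    ((φ (L1 - Real.log a) * φ (L2 - Real.log b) * φ (L3 - Real.log c) /
      Real.sqrt ((a : ℝ) * b * c) : ℝ) : ℂ) * ker sig lam ((a : ℝ) * b / c)

/-- a smooth step from `0` to `1` on `[-1, 1]` -/
structure Step (φ : ℝ → ℝ) : Prop where
  smooth : ContDiff ℝ 2 φ
  zero : ∀ x, x ≤ -1 → φ x = 0
  one : ∀ x, 1 ≤ x → φ x = 1
  nonneg : ∀ x, 0 ≤ φ x
  le_one : ∀ x, φ x ≤ 1

/-- the damped triple sum has a power saving -/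
def TripleStmt : Prop :=
  ∀ φ : ℝ → ℝ, Step φ → ∃ C κ : ℝ, 0 < κ ∧ ∀ (K sig lam L1 L2 L3 : ℝ) (N : ℕ), 2 ≤ K →
    1 / (4 * K ^ 2) ≤ sig → sig ≤ 4 / K ^ 2 → |lam - 1| ≤ 1 / (2 * K) →
    L1 ≤ Real.log K + 10 → L2 ≤ Real.log K + 10 → L3 ≤ Real.log K + 10 →
    Real.exp 11 * K ≤ N → ‖triple φ sig lam L1 L2 L3 N‖ ≤ C * K ^ (2 - κ)

end Pool.Agent.MP_74e98a_nt.H75
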