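import Pool.Agent.MP_74e98a_nt.H75.Weyl
import Pool.Agent.MP_74e98a_nt.H75.TDefs

/-! The bilinear bound for unbalanced ranges. -/

open Finset Complex

namespace Pool.Agent.MP_74e98a_nt.H75

/-- the weighted quadratic sum -/
noncomputable def ws (M : ℕ) (β θ : ℝ) : ℂ := ∑ m ∈ range M, (om β m : ℂ) * qz θ m

theorem norm_ws_neg (M : ℕ) (β θ : ℝ) : ‖ws M β (-θ)‖ = ‖ws M β θ‖ := by
  rw [← Complex.norm_conj (ws M β θ), ws, ws, map_sum]
  congr 1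
  refine sum_congr rfl fun m _ => ?_
  rw [map_mul, conj_qz, conj_ofReal]

theorem norm_ws_triv (M : ℕ) {β : ℝ} (hβ : 0 < β) (θ : ℝ) : ‖ws M β θ‖ ≤ M * (1 / β) := by
  refine (norm_sum_le _ _).trans ?_
  calc _ ≤ ∑ m ∈ range M, 1 / β := sum_le_sum fun m _ => by
        rw [norm_mul, norm_qz, mul_one, norm_real, Real.norm_eq_abs, abs_of_nonneg (om_nonneg _ _)]
        exact om_le hβ m
    _ = _ := by simp

theorem ker_mul_conj (sig lam : ℝ) (m : ℕ) {a b : ℝ} (ha : 0 < a) (hb : 0 < b) :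
    ker sig lam (m / a) * (starRingEnd ℂ) (ker sig lam (m / b)) =
      ((1 / (a * b) : ℝ) : ℂ) * ((om (Real.pi * sig * (1 / a ^ 2 + 1 / b ^ 2)) m : ℂ) *
        qz (lam * (1 / a ^ 2 - 1 / b ^ 2)) m) := by
  have ha' : (a : ℂ) ≠ 0 := by exact_mod_cast ha.ne'
  have hb' : (b : ℂ) ≠ 0 := by exact_mod_cast hb.ne'
  rw [ker, ker, map_mul, ← Complex.exp_conj, conj_ofReal, om, qz, ofReal_mul, ofReal_exp,
    mul_mul_mul_comm, ← Complex.exp_add, mul_assoc (((m : ℝ) ^ 2 : ℝ) : ℂ), ← Complex.exp_add,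
    ← mul_assoc]
  congr 1
  · push_cast; field_simp
  · congr 1
    simp only [map_neg, map_mul, map_add, map_pow, conj_ofReal, conj_I]
    push_cast
    field_simp
    ring

theorem beta_lower {K sig a b : ℝ} (hK : 2 ≤ K) (hs : 1 / (4 * K ^ 2) ≤ sig) (ha : 0 < a)
    (hb : 0 < b) : 0 < Real.pi * sig * (1 / a ^ 2 + 1 / b ^ 2) ∧
      1 / (Real.pi * sig * (1 / a ^ 2 + 1 / b ^ 2)) ≤ 2 * a ^ 2 * K ^ 2 := by
  have hK0 : 0 < K := by linarith
  have h0 : 0 < sig := lt_of_lt_of_le (by positivity) hs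
  have h1 : 0 < Real.pi * sig * (1 / a ^ 2 + 1 / b ^ 2) := by have := Real.pi_pos; positivity
  refine ⟨h1, ?_⟩
  have h2 : 2 * (1 / (4 * K ^ 2)) * (1 / a ^ 2) ≤ Real.pi * sig * (1 / a ^ 2 + 1 / b ^ 2) := by
    have := Real.two_le_pi
    have : 0 ≤ 1 / b ^ 2 := by positivity
    gcongr
    linarith
  calc _ ≤ 1 / (2 * (1 / (4 * K ^ 2)) * (1 / a ^ 2)) :=
        one_div_le_one_div_of_le (by positivity) h2
    _ = _ := by field_simp; ring

theorem pair_bound {K sig lam a b : ℝ} (M : ℕ) (hK : 2 ≤ K) (hs : 1 / (4 * K ^ 2) ≤ sig)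
    (hl1 : 1 / 2 ≤ lam) (hl2 : lam ≤ 3 / 2) (ha : 0 < a) (hab : a < b) :
    ‖ws M (Real.pi * sig * (1 / a ^ 2 + 1 / b ^ 2)) (lam * (1 / a ^ 2 - 1 / b ^ 2))‖ /
      (a * b * √(a * b)) ≤ 15 * lg M * (4 * K ^ 2 * M * (1 / a * (1 / b)) +
        2 * K ^ 2 * √M * (1 / b) + 2 * M * K * (1 / b + 1 / (b - a))) := by
  have hK0 : 0 < K := by linarith
  have hb : 0 < b := ha.trans hab
  have hh : 0 < b - a := sub_pos.mpr hab
  have hM : (0 : ℝ) ≤ M := Nat.cast_nonneg M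
  have hl := one_le_lg M
  obtain ⟨hβ, hβ'⟩ := beta_lower hK hs ha hb
  set β := Real.pi * sig * (1 / a ^ 2 + 1 / b ^ 2) with hβd
  set θ := lam * (1 / a ^ 2 - 1 / b ^ 2) with hθd
  have e0 : 1 / a ^ 2 - 1 / b ^ 2 = (b - a) * (b + a) / (a ^ 2 * b ^ 2) := by field_simp; ring
  have hθ1 : (b - a) / (2 * a) ≤ a * b * θ := by
    rw [hθd, e0]
    have e1 : a * b * (lam * ((b - a) * (b + a) / (a ^ 2 * b ^ 2))) =
        (b - a) / (2 * a) * (2 * lam * ((b + a) / b)) := by field_simp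
    rw [e1]
    refine le_mul_of_one_le_right (by positivity) ?_
    have : 1 ≤ (b + a) / b := by rw [le_div_iff₀ hb]; linarith
    nlinarith
  have hθ : 0 < θ := by
    have : 0 < a * b * θ := lt_of_lt_of_le (by positivity) hθ1
    exact (mul_pos_iff_of_pos_left (by positivity)).mp this
  have hθ2 : √θ ≤ 2 / a := by
    rw [Real.sqrt_le_left (by positivity), hθd, div_pow]
    have h1 : 0 ≤ 1 / b ^ 2 := by positivity
    have h2 : 0 ≤ 1 / a ^ 2 := by positivity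
    have h3 : (2 : ℝ) ^ 2 / a ^ 2 = 4 * (1 / a ^ 2) := by ring
    rw [h3]
    nlinarith
  set V := min (1 / β) ((M : ℝ) ^ 2) with hV
  have hV0 : 0 ≤ V := le_min (by positivity) (by positivity)
  have hV1 : V ≤ 2 * a ^ 2 * K ^ 2 := (min_le_left _ _).trans hβ'
  have hV2 : V ≤ 2 * M * a * K := by
    refine (pow_le_pow_iff_left₀ hV0 (by positivity) two_ne_zero).mp ?_
    have h1 : V ≤ (M : ℝ) ^ 2 := min_le_right _ _
    have h2 : V * V ≤ (2 * a ^ 2 * K ^ 2) * (M : ℝ) ^ 2 := mul_le_mul hV1 h1 hV0 (by positivity)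
    have h3 : 0 ≤ a ^ 2 * K ^ 2 * (M : ℝ) ^ 2 := by positivity
    nlinarith
  have hW := weyl_om M (V := V) hβ hθ (min_choice _ _)
  have hs1 : a ≤ √(a * b) := Real.le_sqrt_of_sq_le (by nlinarith)
  have hs0 : 0 < √(a * b) := lt_of_lt_of_le ha hs1
  have hsθ : 0 < √θ := Real.sqrt_pos.mpr hθ
  have t1 : V * (√θ * M) / (a * b * √(a * b)) ≤ 4 * K ^ 2 * M * (1 / a * (1 / b)) := by
    calc _ ≤ (2 * a ^ 2 * K ^ 2) * (2 / a * M) / (a * b * a) := by gcongr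
      _ = _ := by field_simp; ring
  have t2 : V * √M / (a * b * √(a * b)) ≤ 2 * K ^ 2 * √M * (1 / b) := by
    calc _ ≤ (2 * a ^ 2 * K ^ 2) * √M / (a * b * a) := by gcongr
      _ = _ := by field_simp
  have t3 : V * (1 / √θ) / (a * b * √(a * b)) ≤ 2 * M * K * (1 / b + 1 / (b - a)) := by
    have h1 : 1 / (√(a * b) * √θ) ≤ 1 + b / (b - a) := by
      rw [← Real.sqrt_mul (by positivity), one_div, ← Real.sqrt_inv,
        Real.sqrt_le_left (by positivity)]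
      have h2 : (a * b * θ)⁻¹ ≤ 2 * (b / (b - a)) := by
        calc _ ≤ ((b - a) / (2 * a))⁻¹ := inv_anti₀ (by positivity) hθ1
          _ = 2 * (a / (b - a)) := by field_simp
          _ ≤ _ := by gcongr
      nlinarith [sq_nonneg (b / (b - a))]
    calc _ ≤ (2 * M * a * K) * (1 / √θ) / (a * b * √(a * b)) := by gcongr
      _ = 2 * M * K * (1 / b * (1 / (√(a * b) * √θ))) := by field_simp
      _ ≤ 2 * M * K * (1 / b * (1 + b / (b - a))) := by gcongr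
      _ = _ := by field_simp
  calc _ ≤ 3 * V * (5 * lg M * (√θ * M + √M + 1 / √θ)) / (a * b * √(a * b)) := by
        gcongr; exact hW
    _ = 15 * lg M * (V * (√θ * M) / (a * b * √(a * b)) + V * √M / (a * b * √(a * b)) +
          V * (1 / √θ) / (a * b * √(a * b))) := by ring
    _ ≤ _ := by gcongr

theorem pair_bound' {K sig lam : ℝ} (M : ℕ) (hK : 2 ≤ K) (hs : 1 / (4 * K ^ 2) ≤ sig)
    (hl1 : 1 / 2 ≤ lam) (hl2 : lam ≤ 3 / 2) {a b : ℝ} (ha : 0 < a) (hb : 0 < b) :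
    ‖ws M (Real.pi * sig * (1 / a ^ 2 + 1 / b ^ 2)) (lam * (1 / a ^ 2 - 1 / b ^ 2))‖ /
      (a * b * √(a * b)) ≤ (if a = b then 2 * K ^ 2 * M * (1 / a) else 0) +
        15 * lg M * (4 * K ^ 2 * M * (1 / a * (1 / b)) +
        2 * K ^ 2 * √M * (1 / b) + 2 * M * K * (1 / b + 1 / |b - a|)) := by
  have hK0 : 0 < K := by linarith
  have hl := one_le_lg M
  rcases lt_trichotomy a b with h | rfl | h
  · rw [if_neg h.ne, zero_add, abs_of_pos (sub_pos.mpr h)]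
    exact pair_bound M hK hs hl1 hl2 ha h
  · rw [if_pos rfl]
    refine le_add_of_le_of_nonneg ?_ (by positivity)
    obtain ⟨hβ, hβ'⟩ := beta_lower hK hs ha ha
    rw [Real.sqrt_mul_self ha.le]
    calc _ ≤ M * (2 * a ^ 2 * K ^ 2) / (a * a * a) := by
          gcongr
          exact (norm_ws_triv M hβ _).trans (by gcongr)
      _ = _ := by field_simp
  · rw [if_neg h.ne', zero_add, abs_sub_comm, abs_of_pos (sub_pos.mpr h),
      show lam * (1 / a ^ 2 - 1 / b ^ 2) = -(lam * (1 / b ^ 2 - 1 / a ^ 2)) by ring, norm_ws_neg,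
      add_comm (1 / a ^ 2), mul_comm a b, mul_comm (1 / a)]
    refine (pair_bound M hK hs hl1 hl2 hb h).trans ?_
    have : 1 / a ≤ 1 / b := one_div_le_one_div_of_le hb h.le
    gcongr

/-- the inner sum of the bilinear form -/
noncomputable def inn (sig lam : ℝ) (q : ℕ → ℝ) (C : ℕ) (m : ℕ) : ℂ :=
  ∑ c ∈ Icc 1 C, ((q c / √c : ℝ) : ℂ) * ker sig lam (m / c)

theorem sum_inn_sq {K sig lam ℒ : ℝ} (M C : ℕ) (hK : 2 ≤ K) (hs : 1 / (4 * K ^ 2) ≤ sig)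
    (hl1 : 1 / 2 ≤ lam) (hl2 : lam ≤ 3 / 2) (q : ℕ → ℝ) (hq : ∀ c, |q c| ≤ 1)
    (hM : lg M ≤ ℒ) (hC : lg C ≤ ℒ) :
    ∑ m ∈ range M, ‖inn sig lam q C m‖ ^ 2 ≤
      100 * ℒ ^ 3 * (K ^ 2 * M + K ^ 2 * √M * C + M * K * C) := by
  have hK0 : 0 < K := by linarith
  have hl := one_le_lg M
  have hL : 1 ≤ ℒ := hl.trans hM
  have e : ((∑ m ∈ range M, ‖inn sig lam q C m‖ ^ 2 : ℝ) : ℂ) =
      ∑ a ∈ Icc 1 C, ∑ b ∈ Icc 1 C, ((q a * q b / (a * b * √((a : ℝ) * b)) : ℝ) : ℂ) *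
        ws M (Real.pi * sig * (1 / (a : ℝ) ^ 2 + 1 / (b : ℝ) ^ 2))
          (lam * (1 / (a : ℝ) ^ 2 - 1 / (b : ℝ) ^ 2)) := by
    simp only [ws, mul_sum]
    rw [ofReal_sum, sum_congr rfl fun a _ => sum_comm, sum_comm]
    refine sum_congr rfl fun m _ => ?_
    rw [ofReal_pow, ← Complex.mul_conj', inn, map_sum, sum_mul_sum]
    refine sum_congr rfl fun a ha => sum_congr rfl fun b hb => ?_
    have ha' : (0 : ℝ) < a := by exact_mod_cast (mem_Icc.mp ha).1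
    have hb' : (0 : ℝ) < b := by exact_mod_cast (mem_Icc.mp hb).1
    rw [map_mul, conj_ofReal, mul_mul_mul_comm, ker_mul_conj sig lam m ha' hb', ← mul_assoc,
      ← ofReal_mul, ← ofReal_mul, Real.sqrt_mul ha'.le]
    congr 2
    field_simp
  have h1 : ∑ m ∈ range M, ‖inn sig lam q C m‖ ^ 2 ≤ ∑ a ∈ Icc 1 C, ∑ b ∈ Icc 1 C,
      ((if a = b then 2 * K ^ 2 * M * (1 / (a : ℝ)) else 0) +
        15 * lg M * (4 * K ^ 2 * M * (1 / (a : ℝ) * (1 / (b : ℝ))) +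
        2 * K ^ 2 * √M * (1 / (b : ℝ)) + 2 * M * K * (1 / (b : ℝ) + 1 / |(b : ℝ) - a|))) := by
    refine (le_abs_self _).trans ?_
    rw [← Real.norm_eq_abs, ← norm_real, e]
    refine (norm_sum_le _ _).trans (sum_le_sum fun a ha => (norm_sum_le _ _).trans
      (sum_le_sum fun b hb => ?_))
    have ha' : (0 : ℝ) < a := by exact_mod_cast (mem_Icc.mp ha).1
    have hb' : (0 : ℝ) < b := by exact_mod_cast (mem_Icc.mp hb).1
    have h := pair_bound' M hK hs hl1 hl2 ha' hb'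
    simp only [Nat.cast_inj] at h
    refine le_trans ?_ h
    rw [norm_mul, norm_real, Real.norm_eq_abs, abs_div, abs_mul,
      abs_of_pos (show (0 : ℝ) < a * b * √((a : ℝ) * b) by positivity), div_mul_eq_mul_div]
    gcongr
    exact mul_le_of_le_one_left (norm_nonneg _)
      (mul_le_one₀ (hq a) (abs_nonneg _) (hq b))
  refine h1.trans ?_
  set H := ∑ j ∈ Icc 1 C, (1 : ℝ) / j with hH
  have hH1 : H ≤ ℒ := (harm_le C).trans hC
  have hH0 : 0 ≤ H := sum_nonneg fun _ _ => by positivity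
  have h2 : ∀ a ∈ Icc 1 C, ∑ b ∈ Icc 1 C,
      ((if a = b then 2 * K ^ 2 * M * (1 / (a : ℝ)) else 0) +
        15 * lg M * (4 * K ^ 2 * M * (1 / (a : ℝ) * (1 / (b : ℝ))) +
        2 * K ^ 2 * √M * (1 / (b : ℝ)) + 2 * M * K * (1 / (b : ℝ) + 1 / |(b : ℝ) - a|))) ≤
      (2 * K ^ 2 * M + 15 * ℒ * (4 * K ^ 2 * M * ℒ)) * (1 / (a : ℝ)) +
        15 * ℒ * (2 * K ^ 2 * √M * ℒ + 2 * M * K * (ℒ + 2 * ℒ)) := by
    intro a ha
    have h3 := (harm_around C (Icc 1 C) a (fun d hd => (mem_Icc.mp hd).2) (mem_Icc.mp ha).2).trans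
      (mul_le_mul_of_nonneg_left hC (by norm_num))
    have h4 : 0 ≤ ∑ b ∈ Icc 1 C, 1 / |(b : ℝ) - a| := sum_nonneg fun _ _ => by positivity
    simp only [sum_add_distrib, ← mul_sum, sum_ite_eq, if_pos ha, ← hH]
    calc _ ≤ 2 * K ^ 2 * M * (1 / (a : ℝ)) + 15 * ℒ * (4 * K ^ 2 * M * (1 / (a : ℝ) * ℒ) +
          2 * K ^ 2 * √M * ℒ + 2 * M * K * (ℒ + 2 * ℒ)) := by gcongr
      _ = _ := by ring
  refine (sum_le_sum h2).trans ?_
  rw [sum_add_distrib, ← mul_sum, ← hH, sum_const, Nat.card_Icc, nsmul_eq_mul,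
    Nat.add_sub_cancel]
  have a1 : 0 ≤ K ^ 2 * M := by positivity
  have a2 : 0 ≤ K ^ 2 * √M * C := by positivity
  have a3 : 0 ≤ M * K * C := by positivity
  have b1 : ℒ ≤ ℒ ^ 3 := le_self_pow₀ hL (by norm_num)
  have b2 : ℒ ^ 2 ≤ ℒ ^ 3 := pow_le_pow_right₀ hL (by norm_num)
  have b3 : 0 ≤ ℒ ^ 3 := by positivity
  calc _ ≤ (2 * K ^ 2 * M + 15 * ℒ * (4 * K ^ 2 * M * ℒ)) * ℒ +
        C * (15 * ℒ * (2 * K ^ 2 * √M * ℒ + 2 * M * K * (ℒ + 2 * ℒ))) := by gcongr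
    _ = 2 * (ℒ * (K ^ 2 * M)) + 60 * (ℒ ^ 3 * (K ^ 2 * M)) + 30 * (ℒ ^ 2 * (K ^ 2 * √M * C)) +
        90 * (ℒ ^ 2 * (M * K * C)) := by ring
    _ ≤ _ := by
        nlinarith [mul_le_mul_of_nonneg_right b1 a1, mul_le_mul_of_nonneg_right b2 a2,
          mul_le_mul_of_nonneg_right b2 a3, mul_nonneg b3 a1, mul_nonneg b3 a2, mul_nonneg b3 a3]

theorem sum_pairs_le (N M : ℕ) (f : ℕ → ℝ) (hf : ∀ m, 0 ≤ f m) {D : ℝ}
    (hD : ∀ m < M, (m.divisors.card : ℝ) ≤ D) :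
    ∑ p ∈ (Icc 1 N ×ˢ Icc 1 N).filter (fun p => p.1 * p.2 < M), f (p.1 * p.2) ≤
      D * ∑ m ∈ range M, f m := by
  rw [← sum_fiberwise_of_maps_to (g := fun p : ℕ × ℕ => p.1 * p.2) (t := range M)
    (fun p hp => mem_range.mpr (mem_filter.mp hp).2), mul_sum]
  refine sum_le_sum fun m hm => ?_
  rw [sum_congr rfl (g := fun _ => f m) fun p hp => by rw [(mem_filter.mp hp).2], sum_const,
    nsmul_eq_mul]
  refine mul_le_mul_of_nonneg_right (le_trans ?_ (hD m (mem_range.mp hm))) (hf m)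
  rw [Nat.cast_le]
  refine card_le_card_of_injOn Prod.fst ?_ ?_
  · intro p hp
    have h1 := (mem_filter.mp hp).2
    have h2 := mem_product.mp (mem_filter.mp (mem_filter.mp hp).1).1
    have h3 := (mem_Icc.mp h2.1).1
    have h4 := (mem_Icc.mp h2.2).1
    exact mem_coe.mpr (Nat.mem_divisors.mpr ⟨⟨p.2, h1.symm⟩, by rw [← h1]; positivity⟩)
  · intro p hp p' hp' h
    have h1 := (mem_filter.mp hp).2
    have h1' := (mem_filter.mp hp').2
    have h2 := mem_product.mp (mem_filter.mp (mem_filter.mp hp).1).1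
    have h3 := (mem_Icc.mp h2.1).1
    refine Prod.ext h ?_
    have h5 : p.1 * p.2 = p.1 * p'.2 := by rw [h1, h]; exact h1'.symm
    exact Nat.eq_of_mul_eq_mul_left h3 h5

theorem bil_le {K sig lam ℒ D : ℝ} (N M C : ℕ) (hK : 2 ≤ K) (hs : 1 / (4 * K ^ 2) ≤ sig)
    (hl1 : 1 / 2 ≤ lam) (hl2 : lam ≤ 3 / 2) (q : ℕ → ℝ) (hq : ∀ c, |q c| ≤ 1)
    (hM : lg M ≤ ℒ) (hC : lg C ≤ ℒ) (hD0 : 0 ≤ D) (hD : ∀ m < M, (m.divisors.card : ℝ) ≤ D) :
    ∑ p ∈ (Icc 1 N ×ˢ Icc 1 N).filter (fun p => p.1 * p.2 < M),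
      ‖inn sig lam q C (p.1 * p.2)‖ / √((p.1 * p.2 : ℕ) : ℝ) ≤
      D * (10 * ℒ ^ 2 * √(K ^ 2 * M + K ^ 2 * √M * C + M * K * C)) := by
  have hK0 : 0 < K := by linarith
  have hL : 1 ≤ ℒ := (one_le_lg M).trans hM
  refine (sum_pairs_le N M (fun m => ‖inn sig lam q C m‖ / √(m : ℝ)) (fun m => by positivity)
    hD).trans (mul_le_mul_of_nonneg_left ?_ hD0)
  refine (pow_le_pow_iff_left₀ (sum_nonneg fun _ _ => by positivity) (by positivity)
    two_ne_zero).mp ?_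
  simp only [div_eq_mul_inv]
  refine (sum_mul_sq_le_sq_mul_sq _ _ _).trans ?_
  have h1 : ∑ m ∈ range M, (√(m : ℝ))⁻¹ ^ 2 ≤ ℒ := by
    refine le_trans ?_ ((harm_le M).trans hM)
    calc _ = ∑ m ∈ range M, (1 : ℝ) / m := sum_congr rfl fun m _ => by
          rw [inv_pow, Real.sq_sqrt (Nat.cast_nonneg m), one_div]
      _ ≤ _ := by
          rw [← sum_erase (range M) (a := 0) (by simp)]
          refine sum_le_sum_of_subset_of_nonneg (fun m hm => mem_Icc.mpr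
            ⟨Nat.pos_of_ne_zero (ne_of_mem_erase hm), (mem_range.mp (mem_of_mem_erase hm)).le⟩)
            fun _ _ _ => by positivity
  calc _ ≤ (100 * ℒ ^ 3 * (K ^ 2 * M + K ^ 2 * √M * C + M * K * C)) * ℒ :=
        mul_le_mul (sum_inn_sq M C hK hs hl1 hl2 q hq hM hC) h1
          (sum_nonneg fun _ _ => by positivity) (by positivity)
    _ = _ := by rw [mul_pow, Real.sq_sqrt (by positivity)]; ring

end Pool.Agent.MP_74e98a_nt.H75
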