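import Pool.Agent.MP_74e98a_nt.H75.TDefs

/-! Removing the damping factor with the Cauchy kernel. -/

open Finset Complex MeasureTheory FourierTransform

namespace Pool.Agent.MP_74e98a_nt.H75

/-- the Cauchy kernel -/
noncomputable def cau (s ξ : ℝ) : ℝ := s / (Real.pi * (s ^ 2 + ξ ^ 2))

theorem cau_nonneg {s : ℝ} (hs : 0 < s) (ξ : ℝ) : 0 ≤ cau s ξ := by
  unfold cau; have := Real.pi_pos; positivity

theorem integrable_cau {s : ℝ} (hs : 0 < s) : Integrable (cau s) := by
  have h := (integrable_inv_one_add_sq.comp_div hs.ne').const_mul (1 / (Real.pi * s))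
  refine h.congr (Filter.Eventually.of_forall fun ξ => ?_)
  simp only [cau]
  have := Real.pi_pos
  field_simp

/-- the two-sided exponential -/
noncomputable def lap (s u : ℝ) : ℂ := (Real.exp (-(2 * Real.pi * s * |u|)) : ℝ)

theorem lap_mul_Ioi (s ξ : ℝ) {u : ℝ} (hu : 0 ≤ u) :
    cexp ((-2 * Real.pi * u * ξ : ℝ) * I) * lap s u =
      cexp ((-(2 * Real.pi * s : ℝ) - (2 * Real.pi * ξ : ℝ) * I) * u) := by
  rw [lap, ofReal_exp, ← Complex.exp_add, abs_of_nonneg hu]
  congr 1; push_cast; ring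

theorem lap_mul_Iic (s ξ : ℝ) {u : ℝ} (hu : u ≤ 0) :
    cexp ((-2 * Real.pi * u * ξ : ℝ) * I) * lap s u =
      cexp (((2 * Real.pi * s : ℝ) - (2 * Real.pi * ξ : ℝ) * I) * u) := by
  rw [lap, ofReal_exp, ← Complex.exp_add, abs_of_nonpos hu]
  congr 1; push_cast; ring

theorem lap_pieces {s : ℝ} (hs : 0 < s) (ξ : ℝ) :
    IntegrableOn (fun u : ℝ => cexp ((-2 * Real.pi * u * ξ : ℝ) * I) * lap s u) (Set.Iic 0) ∧
    IntegrableOn (fun u : ℝ => cexp ((-2 * Real.pi * u * ξ : ℝ) * I) * lap s u) (Set.Ioi 0) := by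
  have hp : 0 < 2 * Real.pi * s := by have := Real.pi_pos; positivity
  constructor
  · refine (integrableOn_exp_mul_complex_Iic
      (a := (2 * Real.pi * s : ℝ) - (2 * Real.pi * ξ : ℝ) * I) (by simpa using hp) 0).congr_fun
      (fun u hu => (lap_mul_Iic s ξ hu).symm) measurableSet_Iic
  · refine (integrableOn_exp_mul_complex_Ioi
      (a := -(2 * Real.pi * s : ℝ) - (2 * Real.pi * ξ : ℝ) * I) (by simpa using hp) 0).congr_fun
      (fun u hu => (lap_mul_Ioi s ξ (le_of_lt hu)).symm) measurableSet_Ioi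

theorem integrable_lap {s : ℝ} (hs : 0 < s) : Integrable (lap s) := by
  have h := (lap_pieces hs 0).1.union (lap_pieces hs 0).2
  rw [Set.Iic_union_Ioi, integrableOn_univ] at h
  simpa using h

theorem fourier_lap {s : ℝ} (hs : 0 < s) : 𝓕 (lap s) = fun ξ => (cau s ξ : ℂ) := by
  funext ξ
  have hp : 0 < 2 * Real.pi * s := by have := Real.pi_pos; positivity
  rw [Real.fourier_real_eq_integral_exp_smul]
  simp only [smul_eq_mul]
  rw [← intervalIntegral.integral_Iic_add_Ioi (lap_pieces hs ξ).1 (lap_pieces hs ξ).2,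
    setIntegral_congr_fun measurableSet_Iic (fun u hu => lap_mul_Iic s ξ hu),
    setIntegral_congr_fun measurableSet_Ioi (fun u hu => lap_mul_Ioi s ξ (le_of_lt hu)),
    integral_exp_mul_complex_Iic (by simpa using hp), integral_exp_mul_complex_Ioi (by simpa using hp)]
  have h1 : ((2 * Real.pi * s : ℝ) : ℂ) - (2 * Real.pi * ξ : ℝ) * I ≠ 0 := fun h => by
    have := congrArg Complex.re h
    simp at this
    exact hs.ne' this
  have h2 : -((2 * Real.pi * s : ℝ) : ℂ) - (2 * Real.pi * ξ : ℝ) * I ≠ 0 := fun h => by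
    have := congrArg Complex.re h
    simp at this
    exact hs.ne' this
  have h3 : ((Real.pi * (s ^ 2 + ξ ^ 2) : ℝ) : ℂ) ≠ 0 := by
    have := Real.pi_pos
    exact_mod_cast (show Real.pi * (s ^ 2 + ξ ^ 2) ≠ 0 by positivity)
  rw [cau, ofReal_div, div_add_div _ _ h1 h2, div_eq_div_iff (mul_ne_zero h1 h2) h3]
  push_cast
  simp only [mul_zero, Complex.exp_zero]
  linear_combination (-(4 * (Real.pi : ℂ) ^ 2 * ξ ^ 2 * s)) * I_sq

theorem lap_eq {s : ℝ} (hs : 0 < s) (u : ℝ) :
    lap s u = ∫ ξ : ℝ, cexp ((2 * Real.pi * ξ * u : ℝ) * I) * cau s ξ := by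
  have hc : Continuous (lap s) := by unfold lap; fun_prop
  have h := congrFun (hc.fourierInv_fourier_eq (integrable_lap hs)
    (by rw [fourier_lap hs]; exact (integrable_cau hs).ofReal)) u
  rw [← h, Real.fourierInv_eq_fourier_neg, fourier_lap hs, Real.fourier_real_eq_integral_exp_smul]
  refine integral_congr_ae (Filter.Eventually.of_forall fun ξ => ?_)
  simp only [smul_eq_mul]
  rw [show -2 * Real.pi * ξ * -u = 2 * Real.pi * ξ * u by ring]

theorem integral_cau {s : ℝ} (hs : 0 < s) : ∫ ξ, cau s ξ = 1 := by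
  have h := lap_eq hs 0
  simp only [lap, abs_zero, mul_zero, neg_zero, Real.exp_zero, ofReal_zero, zero_mul,
    Complex.exp_zero, one_mul, integral_complex_ofReal] at h
  exact_mod_cast h.symm

/-- the phase `e(-λ x ^ 2 / 2)` -/
noncomputable def ph (lam x : ℝ) : ℂ :=
  cexp (2 * Real.pi * I * (-(lam * x ^ 2 / 2) : ℝ))

theorem norm_ph (lam x : ℝ) : ‖ph lam x‖ = 1 := by
  have := norm_exp_ofReal_mul_I (2 * Real.pi * -(lam * x ^ 2 / 2))
  rw [← this, ph]
  congr 2; push_cast; ring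

theorem integrable_ph {s : ℝ} (hs : 0 < s) (lam x : ℝ) :
    Integrable fun ξ => (cau s ξ : ℂ) * ph (lam + ξ) x := by
  refine (integrable_cau hs).ofReal.mul_bdd (c := 1) ?_
    (Filter.Eventually.of_forall fun ξ => (norm_ph _ _).le)
  refine Continuous.aestronglyMeasurable ?_
  unfold ph; fun_prop

theorem ker_eq {s : ℝ} (hs : 0 < s) (lam x : ℝ) :
    ker s lam x = x * ∫ ξ, (cau s ξ : ℂ) * ph (lam + ξ) x := by
  have h := lap_eq hs (-(x ^ 2 / 2))
  have e : ∫ ξ, (cau s ξ : ℂ) * ph (lam + ξ) x =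
      ph lam x * ∫ ξ : ℝ, cexp ((2 * Real.pi * ξ * (-(x ^ 2 / 2)) : ℝ) * I) * cau s ξ := by
    rw [← integral_const_mul]
    refine integral_congr_ae (Filter.Eventually.of_forall fun ξ => ?_)
    simp only [ph]
    rw [← mul_assoc, ← Complex.exp_add, mul_comm]
    congr 2; push_cast; ring
  rw [e, ← h, ker, lap, ph, ofReal_exp, ← Complex.exp_add, abs_neg,
    abs_of_nonneg (by positivity)]
  congr 2; push_cast; ring

theorem damp_le {ι : Type*} (S : Finset ι) (w : ι → ℂ) (x : ι → ℝ) {s δ B1 B2 : ℝ} (lam : ℝ)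
    (hs : 0 < s) (hδ : 0 < δ) (hB1 : 0 ≤ B1)
    (h1 : ∀ ξ, |ξ| ≤ δ → ‖∑ i ∈ S, w i * x i * ph (lam + ξ) (x i)‖ ≤ B1)
    (h2 : ∑ i ∈ S, ‖w i * x i‖ ≤ B2) :
    ‖∑ i ∈ S, w i * ker s lam (x i)‖ ≤ B1 + 2 * s / δ * B2 := by
  have hB2 : 0 ≤ B2 := (sum_nonneg fun _ _ => norm_nonneg _).trans h2
  have e : ∑ i ∈ S, w i * ker s lam (x i) =
      ∫ ξ, (cau s ξ : ℂ) * ∑ i ∈ S, w i * x i * ph (lam + ξ) (x i) := by
    simp only [ker_eq hs, ← mul_assoc, ← integral_const_mul]
    rw [← integral_finsetSum _ fun i _ => ((integrable_ph hs lam (x i)).const_mul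
      (w i * x i)).congr (Filter.Eventually.of_forall fun ξ => by simp only [mul_assoc])]
    refine integral_congr_ae (Filter.Eventually.of_forall fun ξ => ?_)
    simp only [mul_sum]
    exact sum_congr rfl fun i _ => by ring
  rw [e]
  have hi : Integrable fun ξ => B1 * cau s ξ + 2 * s / δ * B2 * cau δ ξ :=
    ((integrable_cau hs).const_mul _).add ((integrable_cau hδ).const_mul _)
  refine (norm_integral_le_of_norm_le hi (Filter.Eventually.of_forall fun ξ => ?_)).trans ?_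
  · rw [norm_mul, norm_real, Real.norm_eq_abs, abs_of_nonneg (cau_nonneg hs ξ)]
    have c1 := cau_nonneg hs ξ
    have c2 := cau_nonneg hδ ξ
    rcases le_or_gt |ξ| δ with h | h
    · have := mul_le_mul_of_nonneg_left (h1 ξ h) c1
      have : 0 ≤ 2 * s / δ * B2 * cau δ ξ := by positivity
      linarith
    · have h3 : ‖∑ i ∈ S, w i * x i * ph (lam + ξ) (x i)‖ ≤ B2 :=
        (norm_sum_le _ _).trans (le_trans (sum_le_sum fun i _ => by
          rw [norm_mul, norm_ph, mul_one]) h2)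
      have h4 : δ ^ 2 ≤ ξ ^ 2 := by rw [← sq_abs ξ]; gcongr
      have h5 : cau s ξ ≤ 2 * s / δ * cau δ ξ := by
        have := Real.pi_pos
        have e2 : 2 * s / δ * cau δ ξ = s / (Real.pi * ((δ ^ 2 + ξ ^ 2) / 2)) := by
          unfold cau; field_simp
        rw [e2, cau]
        gcongr
        nlinarith [sq_nonneg s]
      have h6 := mul_le_mul h5 h3 (norm_nonneg _) (by positivity)
      have : 0 ≤ B1 * cau s ξ := by positivity
      linarith
  · rw [integral_add ((integrable_cau hs).const_mul _) ((integrable_cau hδ).const_mul _),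
      integral_const_mul, integral_const_mul, integral_cau hs, integral_cau hδ, mul_one, mul_one]

end Pool.Agent.MP_74e98a_nt.H75
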