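import Pool.Agent.MP_ca0a54_nt.L0.MeanA
import Pool.Agent.MP_74e98a_nt.H25.Div

/-! The fourth moment of Dirichlet polynomials on the critical line. -/

open Finset Complex

namespace Pool.Agent.MP_74e98a_nt.H75

/-- the Dirichlet polynomial `∑ d n * n ^ (-1/2 - i t)` -/
noncomputable def dp (N : ℕ) (d : ℕ → ℂ) (t : ℝ) : ℂ :=
  ∑ n ∈ Icc 1 N, d n / √n * cexp (-I * (Real.log n : ℂ) * t)

@[fun_prop]
theorem continuous_dp (N : ℕ) (d : ℕ → ℂ) : Continuous (dp N d) := by unfold dp; fun_prop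

theorem dp_eq (N : ℕ) (d : ℕ → ℂ) (t : ℝ) :
    dp N d t = ∑ n ∈ Icc 1 N, d n * (n : ℂ) ^ (-(1 / 2 + t * I)) := by
  refine sum_congr rfl fun n hn => ?_
  have hn' : (0 : ℝ) < n := by exact_mod_cast (mem_Icc.mp hn).1
  have e : ((√n : ℝ) : ℂ) = cexp ((Real.log n : ℂ) / 2) := by
    conv_lhs => rw [← Real.exp_log hn', ← Real.exp_half]
    push_cast; rfl
  rw [Complex.cpow_def_of_ne_zero (by exact_mod_cast hn'.ne'), ← Complex.natCast_log, e,
    div_eq_mul_inv, ← Complex.exp_neg, mul_assoc, ← Complex.exp_add]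
  congr 2; ring

/-- the coefficients of the square -/
noncomputable def sqc (N : ℕ) (d : ℕ → ℂ) (m : ℕ) : ℂ :=
  ∑ p ∈ (Icc 1 N ×ˢ Icc 1 N).filter (fun p => p.1 * p.2 = m), d p.1 * d p.2

theorem dp_sq (N : ℕ) (d : ℕ → ℂ) (t : ℝ) : dp N d t ^ 2 = dp (N ^ 2) (sqc N d) t := by
  rw [sq, dp, sum_mul_sum, ← sum_product', dp,
    ← sum_fiberwise_of_maps_to (g := fun p : ℕ × ℕ => p.1 * p.2) (t := Icc 1 (N ^ 2))]
  · refine sum_congr rfl fun m _ => ?_
    rw [sqc, sum_div, sum_mul]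
    refine sum_congr rfl fun p hp => ?_
    obtain ⟨hp', hm⟩ := mem_filter.mp hp
    rw [← hm]
    have ha : (0 : ℝ) < p.1 := by exact_mod_cast (mem_Icc.mp (mem_product.mp hp').1).1
    have hb : (0 : ℝ) < p.2 := by exact_mod_cast (mem_Icc.mp (mem_product.mp hp').2).1
    rw [Nat.cast_mul, Real.sqrt_mul ha.le, Real.log_mul ha.ne' hb.ne', mul_mul_mul_comm,
      ← Complex.exp_add, div_mul_div_comm]
    push_cast
    congr 2; ring
  · intro p hp
    have ha := mem_Icc.mp (mem_product.mp hp).1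
    have hb := mem_Icc.mp (mem_product.mp hp).2
    exact mem_Icc.mpr ⟨Nat.mul_pos ha.1 hb.1, sq N ▸ Nat.mul_le_mul ha.2 hb.2⟩

theorem norm_sqc (N : ℕ) {d : ℕ → ℂ} (hd : ∀ n, ‖d n‖ ≤ 1) (m : ℕ) :
    ‖sqc N d m‖ ≤ m.divisors.card := by
  refine (norm_sum_le _ _).trans ((sum_le_sum (g := fun _ => (1 : ℝ)) fun p _ => ?_).trans ?_)
  · rw [norm_mul]; exact mul_le_one₀ (hd _) (norm_nonneg _) (hd _)
  rw [sum_const, nsmul_eq_mul, mul_one, Nat.cast_le]
  refine card_le_card_of_injOn Prod.fst ?_ ?_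
  · intro p hp
    have h1 := (mem_filter.mp hp).2
    have h2 := mem_product.mp (mem_filter.mp hp).1
    have h3 := (mem_Icc.mp h2.1).1
    have h4 := (mem_Icc.mp h2.2).1
    exact mem_coe.mpr (Nat.mem_divisors.mpr ⟨⟨p.2, h1.symm⟩, by rw [← h1]; positivity⟩)
  · intro p hp p' hp' h
    have h1 := (mem_filter.mp hp).2
    have h1' := (mem_filter.mp hp').2
    have h3 := (mem_Icc.mp (mem_product.mp (mem_filter.mp hp).1).1).1
    refine Prod.ext h ?_
    have h5 : p.1 * p.2 = p.1 * p'.2 := by rw [h1, h]; exact h1'.symm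
    exact Nat.eq_of_mul_eq_mul_left h3 h5

theorem second_moment : ∃ C : ℝ, 0 < C ∧ ∀ (N : ℕ) (d : ℕ → ℂ) (D a T : ℝ), 0 ≤ T → 0 < D →
    (∀ n ∈ Icc 1 N, ‖d n‖ ≤ D) →
    ∫ t in a..a + T, ‖dp N d t‖ ^ 2 ≤ C * D ^ 2 * (T + N) * (1 + Real.log N) := by
  obtain ⟨C, hC, H⟩ := Pool.Agent.MP_ca0a54_nt.L0.off_diag
  refine ⟨C + 1, by positivity, fun N d D a T hT hD hd => ?_⟩
  have hb : ∀ n ∈ Icc 1 N, ‖d n / √n / D‖ ≤ 1 / √n := fun n hn => by
    rw [norm_div, norm_div, norm_real, norm_real, Real.norm_eq_abs, Real.norm_eq_abs,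
      abs_of_nonneg (Real.sqrt_nonneg _), abs_of_pos hD, div_right_comm]
    gcongr
    exact (div_le_one hD).mpr (hd n hn)
  have h := H N _ _ a (a + T) hb hb
  have hD' : (D : ℂ) ≠ 0 := by exact_mod_cast hD.ne'
  have e1 : ∀ t : ℝ, ∑ m ∈ Icc 1 N, d m / √m / D * cexp (-I * (Real.log m : ℂ) * t) =
      dp N d t / D := fun t => by
    rw [dp, sum_div]; exact sum_congr rfl fun m _ => by ring
  simp only [e1, Complex.mul_conj', norm_div, norm_real, Real.norm_eq_abs, abs_of_pos hD,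
    ← ofReal_pow, intervalIntegral.integral_ofReal, ← ofReal_sum, ← ofReal_mul, ← ofReal_sub,
    div_pow, intervalIntegral.integral_div, add_sub_cancel_left] at h
  have h2 : ∑ n ∈ Icc 1 N, ‖d n‖ ^ 2 / |√n| ^ 2 / D ^ 2 ≤ 1 + Real.log N := by
    refine le_trans (sum_le_sum fun n hn => ?_) (Pool.Agent.MP_ca0a54_nt.L0.MeanA.harm_le N)
    rw [sq_abs, Real.sq_sqrt (Nat.cast_nonneg n), div_right_comm]
    gcongr
    exact (div_le_one (by positivity)).mpr (pow_le_pow_left₀ (norm_nonneg _) (hd n hn) 2)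
  have h3 := (abs_le.mp h).2
  have h4 := mul_le_mul_of_nonneg_left h2 hT
  have hl : 0 ≤ 1 + Real.log N := by have := Real.log_natCast_nonneg N; linarith
  have h5 : (∫ t in a..a + T, ‖dp N d t‖ ^ 2) / D ^ 2 ≤ (C + 1) * (T + N) * (1 + Real.log N) := by
    have a1 : 0 ≤ C * T * (1 + Real.log N) := by positivity
    have a2 : 0 ≤ N * (1 + Real.log N) := by positivity
    nlinarith
  rw [div_le_iff₀ (by positivity)] at h5
  linarith

theorem fourth_moment {ε : ℝ} (hε : 0 < ε) : ∃ C : ℝ, 0 < C ∧ ∀ (N : ℕ) (d : ℕ → ℂ) (a T : ℝ),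
    0 ≤ T → (∀ n, ‖d n‖ ≤ 1) →
    ∫ t in a..a + T, ‖dp N d t‖ ^ 4 ≤ C * (T + N ^ 2) * (N : ℝ) ^ ε := by
  obtain ⟨C, hC, H⟩ := second_moment
  obtain ⟨C2, hC2, hdiv⟩ := H25.divisor_bound (ε / 5) (by positivity)
  refine ⟨C * C2 ^ 2 * (1 + 10 / ε), by positivity, fun N d a T hT hd => ?_⟩
  rcases Nat.eq_zero_or_pos N with rfl | hN
  · simp [dp, Real.zero_rpow hε.ne']
  have hN' : (1 : ℝ) ≤ N := by exact_mod_cast hN
  set u := (N : ℝ) ^ (ε / 5) with hu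
  have hu1 : 1 ≤ u := Real.one_le_rpow hN' (by positivity)
  have h := H (N ^ 2) (sqc N d) (C2 * u ^ 2) a T hT (by positivity) fun m hm => by
    refine (norm_sqc N hd m).trans ((hdiv m).trans ?_)
    have : (m : ℝ) ≤ (N : ℝ) ^ 2 := by exact_mod_cast (mem_Icc.mp hm).2
    rw [hu, Real.rpow_pow_comm (by positivity)]
    gcongr
  simp only [← dp_sq, norm_pow, ← pow_mul] at h
  refine h.trans ?_
  have h1 : Real.log N ≤ u / (ε / 5) := Real.log_le_rpow_div (by positivity) (by positivity)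
  have h2 : 1 + Real.log ((N ^ 2 : ℕ) : ℝ) ≤ (1 + 10 / ε) * u := by
    rw [Nat.cast_pow, Real.log_pow]
    have : (1 + 10 / ε) * u = u + 2 * (u / (ε / 5)) := by field_simp; ring
    push_cast
    linarith
  have h3 : (N : ℝ) ^ ε = u ^ 5 := by
    rw [hu, ← Real.rpow_natCast, ← Real.rpow_mul (by positivity)]; congr 1; push_cast; ring
  calc _ ≤ C * (C2 * u ^ 2) ^ 2 * (T + ((N ^ 2 : ℕ) : ℝ)) * ((1 + 10 / ε) * u) := by gcongr
    _ = _ := by rw [h3]; push_cast; ring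

end Pool.Agent.MP_74e98a_nt.H75
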