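import Pool.Agent.MP_74e98a_nt.H75.Unbal
import Pool.Agent.MP_74e98a_nt.H75.Cauchy
import Pool.Agent.MP_74e98a_nt.H25.BDefs

/-! The balanced range and the power saving for the damped triple sum. -/

open Finset Complex

namespace Pool.Agent.MP_74e98a_nt.H75

/-- bounded functions vanishing to the left of `-1` -/
structure Lft (B : ℝ) (f : ℝ → ℝ) : Prop where
  zero : ∀ x, x < -1 → f x = 0
  bd : ∀ x, |f x| ≤ B

theorem deriv_const_Iio {f : ℝ → ℝ} {a c : ℝ} (h : ∀ x, x < a → f x = c) (x : ℝ) (hx : x < a) :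
    deriv f x = 0 := by
  have : f =ᶠ[nhds x] fun _ => c := Filter.eventually_of_mem (Iio_mem_nhds hx) h
  rw [this.deriv_eq, deriv_const]

theorem deriv_const_Ioi {f : ℝ → ℝ} {a c : ℝ} (h : ∀ x, a < x → f x = c) (x : ℝ) (hx : a < x) :
    deriv f x = 0 := by
  have : f =ᶠ[nhds x] fun _ => c := Filter.eventually_of_mem (Ioi_mem_nhds hx) h
  rw [this.deriv_eq, deriv_const]

theorem exists_bd {f : ℝ → ℝ} (hf : Continuous f) (h1 : ∀ x, x < -1 → f x = 0)
    (h2 : ∀ x, 1 < x → f x = 0) : ∃ B, 1 ≤ B ∧ ∀ x, |f x| ≤ B := by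
  obtain ⟨B, hB⟩ := (isCompact_Icc (a := (-1 : ℝ)) (b := 1)).exists_bound_of_continuousOn
    hf.continuousOn
  refine ⟨max 1 B, le_max_left _ _, fun x => ?_⟩
  rcases lt_or_ge x (-1) with h | h
  · simp [h1 x h]
  rcases lt_or_ge 1 x with h' | h'
  · simp [h2 x h']
  exact (hB x ⟨h, h'⟩).trans (le_max_right _ _)

theorem Step.lft {φ : ℝ → ℝ} (h : Step φ) : ∃ B, 1 ≤ B ∧ Lft B φ ∧ Lft B (deriv φ) ∧
    Lft B (deriv (deriv φ)) := by
  have z1 := deriv_const_Iio (fun x (hx : x < -1) => h.zero x hx.le)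
  have z1' := deriv_const_Ioi (fun x (hx : 1 < x) => h.one x hx.le)
  have z2 := deriv_const_Iio z1
  have z2' := deriv_const_Ioi z1'
  have c1 : ContDiff ℝ 1 (deriv φ) := h.smooth.deriv'
  obtain ⟨B1, hB1, b1⟩ := exists_bd c1.continuous z1 z1'
  obtain ⟨B2, -, b2⟩ := exists_bd (c1.continuous_deriv le_rfl) z2 z2'
  refine ⟨max B1 B2, hB1.trans (le_max_left _ _), ⟨fun x hx => h.zero x hx.le, fun x => ?_⟩,
    ⟨z1, fun x => (b1 x).trans (le_max_left _ _)⟩, ⟨z2, fun x => (b2 x).trans (le_max_right _ _)⟩⟩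
  rw [abs_of_nonneg (h.nonneg x)]
  exact (h.le_one x).trans (hB1.trans (le_max_left _ _))

/-- a product of two steps and an exponential -/
noncomputable def tc (L k ρ θ : ℝ) (f h : ℝ → ℝ) (l : ℝ) : ℂ :=
  ((f (L - l) * h (l - (k - ρ)) * Real.exp (θ * (l - k)) : ℝ) : ℂ)

theorem tc_deriv (L k ρ θ : ℝ) {f h : ℝ → ℝ} (hf : Differentiable ℝ f) (hh : Differentiable ℝ h)
    (l : ℝ) : HasDerivAt (tc L k ρ θ f h) (-tc L k ρ θ (deriv f) h l + tc L k ρ θ f (deriv h) l +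
      θ * tc L k ρ θ f h l) l := by
  have h1 : HasDerivAt (fun l => f (L - l)) (deriv f (L - l) * (-1)) l :=
    (hf _).hasDerivAt.comp l ((hasDerivAt_id l).const_sub L)
  have h2 : HasDerivAt (fun l => h (l - (k - ρ))) (deriv h (l - (k - ρ)) * 1) l :=
    (hh _).hasDerivAt.comp l ((hasDerivAt_id l).sub_const _)
  have h3 : HasDerivAt (fun l => Real.exp (θ * (l - k))) (Real.exp (θ * (l - k)) * (θ * 1)) l :=
    (((hasDerivAt_id l).sub_const k).const_mul θ).exp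
  refine (((h1.mul h2).mul h3).ofReal_comp).congr_deriv ?_
  simp only [tc, Pi.mul_apply]
  push_cast
  ring

theorem tc_supp {L k ρ θ B : ℝ} {f h : ℝ → ℝ} (hf : Lft B f) (hh : Lft B h) (hL : L ≤ k + 10)
    (hρ : 0 ≤ ρ) {l : ℝ} (h0 : tc L k ρ θ f h l ≠ 0) : |l - k| ≤ ρ + 11 := by
  have h1 : ¬ L - l < -1 := fun h => h0 (by simp [tc, hf.zero _ h])
  have h2 : ¬ l - (k - ρ) < -1 := fun h => h0 (by simp [tc, hh.zero _ h])
  rw [abs_le]
  constructor <;> linarith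

theorem tc_le {L k ρ θ B : ℝ} {f h : ℝ → ℝ} (hf : Lft B f) (hh : Lft B h) (hL : L ≤ k + 10)
    (hρ : 0 ≤ ρ) (hθ : |θ| ≤ 2) (l : ℝ) :
    ‖tc L k ρ θ f h l‖ ≤ B ^ 2 * Real.exp (2 * (ρ + 11)) := by
  by_cases h0 : tc L k ρ θ f h l = 0
  · rw [h0, norm_zero]; positivity
  have h1 := tc_supp hf hh hL hρ h0
  have hB : 0 ≤ B := (abs_nonneg _).trans (hf.bd 0)
  rw [tc, norm_real, Real.norm_eq_abs, abs_mul, abs_mul, Real.abs_exp, sq]
  have h2 : θ * (l - k) ≤ 2 * (ρ + 11) :=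
    (le_abs_self _).trans (by rw [abs_mul]; gcongr)
  gcongr
  · exact hf.bd _
  · exact hh.bd _

theorem wt_tc {φ : ℝ → ℝ} (hφ : ContDiff ℝ 2 φ) {B K L ρ θ Λ : ℝ} (hB : 1 ≤ B) (h0 : Lft B φ)
    (h1 : Lft B (deriv φ)) (h2 : Lft B (deriv (deriv φ))) (hL : L ≤ Real.log K + 10) (hρ : 0 ≤ ρ)
    (hθ : |θ| ≤ 2) (hΛ : 16 * (B ^ 2 * Real.exp (2 * (ρ + 11))) ≤ Λ) :
    H25.Wt K Λ (tc L (Real.log K) ρ θ φ φ) := by
  have d0 : Differentiable ℝ φ := hφ.differentiable (by norm_num)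
  have c1 : ContDiff ℝ 1 (deriv φ) := hφ.deriv'
  have d1 : Differentiable ℝ (deriv φ) := c1.differentiable (by norm_num)
  set k := Real.log K
  set E := B ^ 2 * Real.exp (2 * (ρ + 11)) with hE
  have hE0 : 0 ≤ E := by positivity
  have hθ' : ‖(θ : ℂ)‖ ≤ 2 := by rwa [norm_real]
  have key : ∀ {f h : ℝ → ℝ} (l : ℝ), Lft B f → Lft B h → Lft B (deriv f) → Lft B (deriv h) →
      ‖-tc L k ρ θ (deriv f) h l + tc L k ρ θ f (deriv h) l + θ * tc L k ρ θ f h l‖ ≤ 4 * E := by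
    intro f h l hf hh hf' hh'
    refine (norm_add₃_le).trans ?_
    rw [norm_neg, norm_mul]
    have a1 := tc_le hf' hh hL hρ hθ l
    have a2 := tc_le hf hh' hL hρ hθ l
    have a3 := mul_le_mul hθ' (tc_le hf hh hL hρ hθ l) (norm_nonneg _) (by norm_num)
    linarith
  have e1 : deriv (tc L k ρ θ φ φ) = fun l => -tc L k ρ θ (deriv φ) φ l +
      tc L k ρ θ φ (deriv φ) l + θ * tc L k ρ θ φ φ l :=
    funext fun l => (tc_deriv L k ρ θ d0 d0 l).deriv
  refine ⟨?_, fun l => (tc_le h0 h0 hL hρ hθ l).trans (by linarith), fun l => ?_, fun l => ?_,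
    fun l hl => (tc_supp h0 h0 hL hρ hl).trans ?_⟩
  · have hc : ContDiff ℝ 2 fun l => φ (L - l) * φ (l - (k - ρ)) * Real.exp (θ * (l - k)) := by
      fun_prop
    exact ofRealCLM.contDiff.comp hc
  · rw [e1]
    exact (key l h0 h0 h1 h1).trans (by linarith)
  · have hd := (((tc_deriv L k ρ θ d1 d0 l).neg.add (tc_deriv L k ρ θ d0 d1 l)).add
      ((tc_deriv L k ρ θ d0 d0 l).const_mul (θ : ℂ))).deriv
    rw [e1]
    refine (congrArg norm hd).le.trans ((norm_add₃_le).trans ?_)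
    rw [norm_neg, norm_mul]
    have a1 := key l h1 h0 h2 h1
    have a2 := key l h0 h1 h1 h2
    have a3 := mul_le_mul hθ' (key l h0 h0 h1 h1) (norm_nonneg _) (by norm_num)
    linarith
  · have h3 : Real.exp (ρ + 11) ≤ Λ := by
      have h4 : Real.exp (ρ + 11) ≤ Real.exp (2 * (ρ + 11)) := Real.exp_le_exp.mpr (by linarith)
      have h5 : 1 ≤ B ^ 2 := one_le_pow₀ hB
      have h6 : Real.exp (2 * (ρ + 11)) ≤ E := le_mul_of_one_le_left (by positivity) h5
      linarith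
    exact (Real.le_log_iff_exp_le (lt_of_lt_of_le (Real.exp_pos _) h3)).mpr h3

/-- the weight cut from both sides -/
noncomputable def big (φ : ℝ → ℝ) (L k ρ : ℝ) (n : ℕ) : ℝ :=
  φ (L - Real.log n) * φ (Real.log n - (k - ρ))

theorem term_eq (φ : ℝ → ℝ) {K : ℝ} (hK : 0 < K) (L1 L2 L3 ρ : ℝ) {a b c : ℕ} (ha : 1 ≤ a)
    (hb : 1 ≤ b) (hc : 1 ≤ c) :
    ((big φ L1 (Real.log K) ρ a * big φ L2 (Real.log K) ρ b * big φ L3 (Real.log K) ρ c /
      √((a : ℝ) * b * c) : ℝ) : ℂ) * (((a : ℝ) * b / c : ℝ) : ℂ) =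
    ((K ^ (-(1 / 2) : ℝ) : ℝ) : ℂ) * (tc L1 (Real.log K) ρ (1 / 2) φ φ (Real.log a) *
      tc L2 (Real.log K) ρ (1 / 2) φ φ (Real.log b) *
      tc L3 (Real.log K) ρ (-(3 / 2)) φ φ (Real.log c)) := by
  have ha' : (0 : ℝ) < a := by exact_mod_cast ha
  have hb' : (0 : ℝ) < b := by exact_mod_cast hb
  have hc' : (0 : ℝ) < c := by exact_mod_cast hc
  have e1 : (a : ℝ) * b / c = Real.exp (Real.log a + Real.log b - Real.log c) := by
    rw [Real.exp_sub, Real.exp_add, Real.exp_log ha', Real.exp_log hb', Real.exp_log hc']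
  have e2 : √((a : ℝ) * b * c) = Real.exp ((Real.log a + Real.log b + Real.log c) / 2) := by
    rw [Real.exp_half, Real.exp_add, Real.exp_add, Real.exp_log ha', Real.exp_log hb',
      Real.exp_log hc']
  have e3 : Real.exp (Real.log a + Real.log b - Real.log c) /
      Real.exp ((Real.log a + Real.log b + Real.log c) / 2) = K ^ (-(1 / 2) : ℝ) *
      (Real.exp (1 / 2 * (Real.log a - Real.log K)) * Real.exp (1 / 2 * (Real.log b - Real.log K)) *
        Real.exp (-(3 / 2) * (Real.log c - Real.log K))) := by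
    rw [Real.rpow_def_of_pos hK, ← Real.exp_sub, ← Real.exp_add, ← Real.exp_add, ← Real.exp_add]
    congr 1; ring
  simp only [tc, big, ← ofReal_mul]
  congr 1
  rw [e1, e2, div_mul_eq_mul_div, mul_div_assoc, e3]
  ring

theorem bal (hB : H25.BStmt) {φ : ℝ → ℝ} (hφ : Step φ) : ∃ η C κ : ℝ, 0 < η ∧ η ≤ 1 ∧ 0 < κ ∧
    ∀ (K sig lam L1 L2 L3 : ℝ) (N : ℕ), 2 ≤ K → 0 < sig → sig ≤ 4 / K ^ 2 →
    |lam - 1| ≤ 1 / (2 * K) → L1 ≤ Real.log K + 10 → L2 ≤ Real.log K + 10 →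
    L3 ≤ Real.log K + 10 → Real.exp 11 * K ≤ N →
    ‖tri sig lam (big φ L1 (Real.log K) (η * Real.log K)) (big φ L2 (Real.log K) (η * Real.log K))
      (big φ L3 (Real.log K) (η * Real.log K)) N‖ ≤ C * K ^ (2 - κ) := by
  obtain ⟨C, κ, hκ, H⟩ := hB
  obtain ⟨B, hB1, b0, b1, b2⟩ := hφ.lft
  set η := min (κ / (4 * (|C| + 1))) (1 / 48) with hη
  have hη0 : 0 < η := lt_min (by positivity) (by norm_num)
  have hη1 : η ≤ 1 / 48 := min_le_right _ _
  have hη2 : 2 * η * |C| ≤ κ / 2 := by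
    have h1 : η ≤ κ / (4 * (|C| + 1)) := min_le_left _ _
    rw [le_div_iff₀ (by positivity)] at h1
    nlinarith
  set A := 16 * (B ^ 2 * Real.exp 22) with hA
  have hE : Real.exp 11 ≤ Real.exp 22 := Real.exp_le_exp.mpr (by norm_num)
  have hE1 : 1 ≤ Real.exp 11 := Real.one_le_exp (by norm_num)
  have hA1 : 16 * Real.exp 11 ≤ A := by
    have : Real.exp 22 ≤ B ^ 2 * Real.exp 22 :=
      le_mul_of_one_le_left (by positivity) (one_le_pow₀ hB1)
    linarith
  refine ⟨η, A ^ |C| + 128 * A ^ 6, min (κ / 2) (1 / 4), hη0, by linarith,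
    lt_min (by positivity) (by norm_num), fun K sig lam L1 L2 L3 N hK hs hs' hl h1 h2 h3 hN => ?_⟩
  have hK0 : 0 < K := by linarith
  have hK1 : 1 ≤ K := by linarith
  have mono : ∀ {a b : ℝ}, a ≤ b → K ^ a ≤ K ^ b := fun h => Real.rpow_le_rpow_of_exponent_le hK1 h
  set k := Real.log K with hk
  have hk0 : 0 ≤ k := Real.log_nonneg hK1
  set Λ := A * K ^ (2 * η) with hΛ
  have hKη : 1 ≤ K ^ (2 * η) := Real.one_le_rpow hK1 (by positivity)
  have hΛA : A ≤ Λ := le_mul_of_one_le_right (by positivity) hKη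
  have hΛ' : 16 * (B ^ 2 * Real.exp (2 * (η * k + 11))) ≤ Λ := by
    rw [hΛ, hA, Real.rpow_def_of_pos hK0, mul_assoc, mul_assoc, ← Real.exp_add]
    apply le_of_eq; congr 3; ring
  have hρ : 0 ≤ η * k := by positivity
  have w1 := wt_tc hφ.smooth hB1 b0 b1 b2 h1 hρ (θ := 1 / 2) (by norm_num [abs_le]) hΛ'
  have w2 := wt_tc hφ.smooth hB1 b0 b1 b2 h2 hρ (θ := 1 / 2) (by norm_num [abs_le]) hΛ'
  have w3 := wt_tc hφ.smooth hB1 b0 b1 b2 h3 hρ (θ := -(3 / 2)) (by norm_num [abs_le]) hΛ'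
  set N' := ⌈Λ * K⌉₊ with hN'
  have hN1 : Λ * K ≤ N' := Nat.le_ceil _
  have hN2 : (N' : ℝ) ≤ 2 * (Λ * K) := by
    have := (Nat.ceil_lt_add_one (show 0 ≤ Λ * K by positivity)).le
    have h5 : 1 ≤ Λ * K := one_le_mul_of_one_le_of_one_le (by linarith) hK1
    linarith
  have hz : ∀ L, L ≤ k + 10 → ∀ n : ℕ, Real.exp 11 * K < n → big φ L k (η * k) n = 0 := by
    intro L hL n hn
    have := Real.log_lt_log (by positivity) hn
    rw [Real.log_mul (by positivity) hK0.ne', Real.log_exp] at this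
    rw [big, hφ.zero _ (by linarith), zero_mul]
  rw [tri_indep sig lam (hz L1 h1) (hz L2 h2) (hz L3 h3) hN
    (le_trans (by gcongr; linarith) hN1), tri, ← sum_product', ← sum_product']
  have hmem : ∀ i ∈ (Icc 1 N' ×ˢ Icc 1 N') ×ˢ Icc 1 N', 1 ≤ i.1.1 ∧ 1 ≤ i.1.2 ∧ 1 ≤ i.2 := by
    intro i hi
    simp only [mem_product, mem_Icc] at hi
    exact ⟨hi.1.1.1, hi.1.2.1, hi.2.1⟩
  have hKh : 0 < K ^ (-(1 / 2) : ℝ) := by positivity
  refine (damp_le _ _ (fun i : (ℕ × ℕ) × ℕ => (i.1.1 : ℝ) * i.1.2 / i.2) lam hs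
    (δ := 1 / (2 * K)) (B1 := K ^ (-(1 / 2) : ℝ) * (Λ ^ C * K ^ (5 / 2 - κ)))
    (B2 := N' ^ 3 * (K ^ (-(1 / 2) : ℝ) * Λ ^ 3)) (by positivity) (by positivity)
    (fun ξ hξ => ?_) ?_).trans ?_
  · have hb := H K Λ (lam + ξ) hK (by linarith) (by
      have := abs_add_le (lam - 1) ξ
      rw [show lam + ξ - 1 = lam - 1 + ξ by ring, show 1 / K = 1 / (2 * K) + 1 / (2 * K) by
        field_simp; ring]
      linarith) _ _ _ w1 w2 w3 N' hN1
    rw [← sum_product', ← sum_product'] at hb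
    rw [sum_congr rfl fun i hi => by
      rw [term_eq φ hK0 L1 L2 L3 _ (hmem i hi).1 (hmem i hi).2.1 (hmem i hi).2.2, mul_assoc],
      ← mul_sum, norm_mul, norm_real, Real.norm_eq_abs, abs_of_pos hKh]
    exact mul_le_mul_of_nonneg_left hb hKh.le
  · calc _ ≤ ∑ i ∈ (Icc 1 N' ×ˢ Icc 1 N') ×ˢ Icc 1 N', K ^ (-(1 / 2) : ℝ) * Λ ^ 3 := by
          refine sum_le_sum fun i hi => ?_
          rw [term_eq φ hK0 L1 L2 L3 _ (hmem i hi).1 (hmem i hi).2.1 (hmem i hi).2.2, norm_mul,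
            norm_real, Real.norm_eq_abs, abs_of_pos hKh, norm_mul, norm_mul, pow_three' Λ]
          gcongr
          · exact w1.b0 _
          · exact w2.b0 _
          · exact w3.b0 _
      _ = _ := by
          rw [sum_const, card_product, card_product, Nat.card_Icc, nsmul_eq_mul,
            Nat.add_sub_cancel]
          push_cast
          ring
  refine le_trans (add_le_add ?_ ?_) (add_mul _ _ _).ge
  · have h4 : Λ ^ C ≤ A ^ |C| * K ^ (κ / 2) := by
      calc _ ≤ Λ ^ |C| := Real.rpow_le_rpow_of_exponent_le (by linarith) (le_abs_self C)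
        _ = A ^ |C| * K ^ (2 * η * |C|) := by
            rw [hΛ, Real.mul_rpow (by positivity) (by positivity), ← Real.rpow_mul hK0.le]
        _ ≤ _ := by gcongr
    calc _ ≤ K ^ (-(1 / 2) : ℝ) * (A ^ |C| * K ^ (κ / 2) * K ^ (5 / 2 - κ)) := by gcongr
      _ = A ^ |C| * (K ^ (-(1 / 2) : ℝ) * K ^ (κ / 2) * K ^ (5 / 2 - κ)) := by ring
      _ ≤ _ := by
          rw [← Real.rpow_add hK0, ← Real.rpow_add hK0]
          have := min_le_left (κ / 2) (1 / 4)
          gcongr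
          linarith
  · calc _ ≤ 2 * (4 / K ^ 2) / (1 / (2 * K)) * ((2 * (Λ * K)) ^ 3 *
          (K ^ (-(1 / 2) : ℝ) * Λ ^ 3)) := by gcongr
      _ = 128 * A ^ 6 * (K ^ (-(1 / 2) : ℝ) * (K ^ (2 * η)) ^ 6 * K ^ 2) := by
          rw [hΛ]; field_simp; ring
      _ ≤ _ := by
          rw [← Real.rpow_natCast (K ^ (2 * η)), ← Real.rpow_natCast K, ← Real.rpow_mul hK0.le,
            ← Real.rpow_add hK0, ← Real.rpow_add hK0]
          have := min_le_right (κ / 2) (1 / 4)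
          gcongr
          push_cast
          linarith

/-- the weight cut to small values -/
noncomputable def sml (φ : ℝ → ℝ) (L k ρ : ℝ) (n : ℕ) : ℝ :=
  φ (L - Real.log n) * (1 - φ (Real.log n - (k - ρ)))

theorem triple_split (φ : ℝ → ℝ) (sig lam L1 L2 L3 k ρ : ℝ) (N : ℕ) :
    triple φ sig lam L1 L2 L3 N =
      tri sig lam (sml φ L1 k ρ) (fun n => φ (L2 - Real.log n)) (fun n => φ (L3 - Real.log n)) N +
      tri sig lam (big φ L1 k ρ) (sml φ L2 k ρ) (fun n => φ (L3 - Real.log n)) N +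
      tri sig lam (big φ L1 k ρ) (big φ L2 k ρ) (sml φ L3 k ρ) N +
      tri sig lam (big φ L1 k ρ) (big φ L2 k ρ) (big φ L3 k ρ) N := by
  simp only [triple, tri, ← sum_add_distrib, ← add_mul, ← ofReal_add, sml, big]
  refine sum_congr rfl fun a _ => sum_congr rfl fun b _ => sum_congr rfl fun c _ => ?_
  congr 2
  ring

theorem triple_of (hB : H25.BStmt) : TripleStmt := by
  intro φ hφ
  obtain ⟨η, C1, κ, hη, hη1, hκ, H1⟩ := bal hB hφ
  obtain ⟨C2, H2⟩ := unbal hη hη1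
  refine ⟨3 * |C2| + |C1|, min κ (η / 16), lt_min hκ (by positivity),
    fun K sig lam L1 L2 L3 N hK hs hs' hl h1 h2 h3 hN => ?_⟩
  have hK0 : 0 < K := by linarith
  have hK1 : 1 ≤ K := by linarith
  have hl' : |lam - 1| ≤ 1 / 2 := hl.trans (one_div_le_one_div_of_le (by norm_num) (by linarith))
  rw [abs_le] at hl'
  set k := Real.log K with hk
  have hz : ∀ L, L ≤ k + 10 → ∀ n : ℕ, φ (L - Real.log n) ≠ 0 → (n : ℝ) ≤ Real.exp 11 * K := by
    intro L hL n hn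
    by_contra h
    have := Real.log_lt_log (by positivity) (not_le.mp h)
    rw [Real.log_mul (by positivity) hK0.ne', Real.log_exp] at this
    exact hn (hφ.zero _ (by linarith))
  have hsm : ∀ (L : ℝ) (n : ℕ), sml φ L k (η * k) n ≠ 0 → (n : ℝ) < Real.exp 1 * K ^ (1 - η) := by
    intro L n hn
    by_contra h
    have := Real.log_le_log (by positivity) (not_lt.mp h)
    rw [Real.log_mul (by positivity) (by positivity), Real.log_exp, Real.log_rpow hK0] at this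
    exact hn (by rw [sml, hφ.one (Real.log n - _) (by linarith), sub_self, mul_zero])
  set N0 := ⌈Real.exp 11 * K⌉₊ with hN0
  have hE1 : 1 ≤ Real.exp 11 := Real.one_le_exp (by norm_num)
  have hE : Real.exp 12 = Real.exp 1 * Real.exp 11 := by rw [← Real.exp_add]; norm_num
  have hE2 : 1 ≤ Real.exp 1 := Real.one_le_exp (by norm_num)
  have hN1 : Real.exp 11 * K ≤ N0 := Nat.le_ceil _
  have hN2 : (N0 : ℝ) ≤ 2 * Real.exp 12 * K := by
    have := (Nat.ceil_lt_add_one (show 0 ≤ Real.exp 11 * K by positivity)).le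
    have h5 : 1 ≤ Real.exp 11 * K := one_le_mul_of_one_le_of_one_le hE1 hK1
    have h6 : Real.exp 11 * K ≤ Real.exp 12 * K := by gcongr; norm_num
    linarith
  have e0 : triple φ sig lam L1 L2 L3 N = triple φ sig lam L1 L2 L3 N0 :=
    tri_indep sig lam (p1 := fun n => φ (L1 - Real.log n)) (p2 := fun n => φ (L2 - Real.log n))
      (p3 := fun n => φ (L3 - Real.log n))
      (fun n hn => by_contra fun h => absurd (hz L1 h1 n h) (not_le.mpr hn))
      (fun n hn => by_contra fun h => absurd (hz L2 h2 n h) (not_le.mpr hn))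
      (fun n hn => by_contra fun h => absurd (hz L3 h3 n h) (not_le.mpr hn)) hN hN1
  have c0 : ∀ x, |φ x| ≤ 1 := fun x => by rw [abs_of_nonneg (hφ.nonneg x)]; exact hφ.le_one x
  have c1 : ∀ L n, |big φ L k (η * k) n| ≤ 1 := fun L n => by
    rw [big, abs_mul]; exact mul_le_one₀ (c0 _) (abs_nonneg _) (c0 _)
  have c2 : ∀ L n, |sml φ L k (η * k) n| ≤ 1 := fun L n => by
    rw [sml, abs_mul]
    refine mul_le_one₀ (c0 _) (abs_nonneg _) (abs_le.mpr ⟨?_, ?_⟩)
    · linarith [hφ.le_one (Real.log n - (k - η * k))]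
    · linarith [hφ.nonneg (Real.log n - (k - η * k))]
  have hp : Real.exp 1 * K ^ (1 - η) * (Real.exp 11 * K) ≤ Real.exp 12 * K ^ (2 - η / 2) := by
    calc _ = Real.exp 12 * (K ^ (1 - η) * K) := by rw [hE]; ring
      _ ≤ _ := by
          rw [← Real.rpow_add_one hK0.ne']
          gcongr
          linarith
  have t1 := H2 K sig lam N0 (sml φ L1 k (η * k)) (fun n => φ (L2 - Real.log n))
    (fun n => φ (L3 - Real.log n)) hK hs (by linarith) (by linarith) hN2 (c2 _) (fun _ => c0 _)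
    (fun _ => c0 _) fun a b c _ hb _ h4 h5 _ => Or.inl (lt_of_lt_of_le
      (mul_lt_mul (hsm L1 a h4) (hz L2 h2 b h5) (by exact_mod_cast hb) (by positivity)) hp)
  have t2 := H2 K sig lam N0 (big φ L1 k (η * k)) (sml φ L2 k (η * k))
    (fun n => φ (L3 - Real.log n)) hK hs (by linarith) (by linarith) hN2 (c1 _) (c2 _)
    (fun _ => c0 _) fun a b c ha _ _ h4 h5 _ => Or.inl (lt_of_lt_of_le (by
      rw [mul_comm]
      exact mul_lt_mul (hsm L2 b h5) (hz L1 h1 a (left_ne_zero_of_mul h4)) (by exact_mod_cast ha)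
        (by positivity)) hp)
  have t3 := H2 K sig lam N0 (big φ L1 k (η * k)) (big φ L2 k (η * k)) (sml φ L3 k (η * k))
    hK hs (by linarith) (by linarith) hN2 (c1 _) (c1 _) (c2 _) fun a b c _ _ hc _ _ h6 => by
      refine (lt_or_ge _ _).imp_right fun h7 => ?_
      rw [le_div_iff₀ (by exact_mod_cast hc)]
      refine le_trans ?_ h7
      calc _ ≤ K ^ (1 + η / 2) * (Real.exp 1 * K ^ (1 - η)) := by gcongr; exact (hsm L3 c h6).le
        _ = Real.exp 1 * K ^ (2 - η / 2) := by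
            rw [mul_left_comm, ← Real.rpow_add hK0]; congr 2; ring
        _ ≤ _ := by gcongr; norm_num
  have t4 := H1 K sig lam L1 L2 L3 N0 hK (lt_of_lt_of_le (by positivity) hs) hs' hl h1 h2 h3 hN1
  have u1 : C2 * K ^ (2 - η / 16) ≤ |C2| * K ^ (2 - min κ (η / 16)) :=
    mul_le_mul (le_abs_self _) (Real.rpow_le_rpow_of_exponent_le hK1
      (by linarith [min_le_right κ (η / 16)])) (by positivity) (abs_nonneg _)
  have u2 : C1 * K ^ (2 - κ) ≤ |C1| * K ^ (2 - min κ (η / 16)) :=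
    mul_le_mul (le_abs_self _) (Real.rpow_le_rpow_of_exponent_le hK1
      (by linarith [min_le_left κ (η / 16)])) (by positivity) (abs_nonneg _)
  rw [e0, triple_split φ sig lam L1 L2 L3 k (η * k)]
  refine (norm_add_le _ _).trans ((add_le_add_left norm_add₃_le _).trans ?_)
  linarith

end Pool.Agent.MP_74e98a_nt.H75
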