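import Pool.Agent.MP_74e98a_nt.H93.Defs
import Pool.Agent.MP_74e98a_nt.H75.Moment
import Pool.Agent.MP_74e98a_nt.H75.Triple

/-! The majorant of the smoothed Dirichlet polynomials and its fourth moment. -/

open Finset Complex

namespace Pool.Agent.MP_74e98a_nt.H75

open H93

theorem abel_S (h : ℕ → ℝ) (N : ℕ) (t : ℝ) : ∑ n ∈ Icc 1 N, (h n : ℂ) * dir n t =
    h (N + 1) * S N t - ∑ k ∈ Icc 1 N, ((h (k + 1) - h k : ℝ) : ℂ) * S k t := by
  induction N with
  | zero => simp [S]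
  | succ N ih =>
    have e : S (N + 1) t = S N t + dir (N + 1) t := by
      rw [S, S, sum_Icc_succ_top (by omega)]
    rw [sum_Icc_succ_top (by omega), sum_Icc_succ_top (by omega), ih, e]
    push_cast
    ring

theorem lip_le {g : ℝ → ℝ} (hg : Differentiable ℝ g) {D : ℝ} (h : ∀ x, |deriv g x| ≤ D)
    (x y : ℝ) : |g y - g x| ≤ D * |y - x| :=
  Convex.norm_image_sub_le_of_norm_deriv_le (s := Set.univ) (fun z _ => hg z) (fun z _ => h z)
    convex_univ (Set.mem_univ x) (Set.mem_univ y)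

theorem sum_le_Maj {g : ℝ → ℝ} (hg : Differentiable ℝ g) {D : ℝ} (h0 : ∀ x, |g x| ≤ D)
    (h1 : ∀ x, |deriv g x| ≤ D) (N : ℕ) (t : ℝ) :
    ‖∑ n ∈ Icc 1 N, (g (Real.log n) : ℂ) * dir n t‖ ≤ D * Maj N t := by
  have hD : 0 ≤ D := (abs_nonneg _).trans (h0 0)
  rw [abel_S (fun n => g (Real.log n)), Maj, mul_add, add_comm (D * _), mul_sum]
  refine (norm_sub_le _ _).trans (add_le_add ?_ ((norm_sum_le _ _).trans (sum_le_sum ?_)))
  · rw [norm_mul, norm_real]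
    exact mul_le_mul_of_nonneg_right (h0 _) (norm_nonneg _)
  · intro k hk
    have hk' : (0 : ℝ) < k := by exact_mod_cast (mem_Icc.mp hk).1
    rw [norm_mul, norm_real, Real.norm_eq_abs, div_eq_mul_one_div, mul_comm ‖S k t‖, ← mul_assoc]
    refine mul_le_mul_of_nonneg_right ((lip_le hg h1 _ _).trans ?_) (norm_nonneg _)
    refine mul_le_mul_of_nonneg_left ?_ hD
    push_cast
    rw [← Real.log_div (by positivity) hk'.ne',
      abs_of_nonneg (Real.log_nonneg (by rw [le_div_iff₀ hk']; linarith))]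
    have := Real.log_le_sub_one_of_pos (show 0 < ((k : ℝ) + 1) / k by positivity)
    have e : ((k : ℝ) + 1) / k - 1 = 1 / k := by field_simp; ring
    linarith

theorem pbound : PStmt := by
  intro φ hφ
  obtain ⟨B, hB, b0, b1, b2⟩ := hφ.lft
  have d0 : Differentiable ℝ φ := hφ.smooth.differentiable (by norm_num)
  have c1 : ContDiff ℝ 1 (deriv φ) := hφ.smooth.deriv'
  have d1 : Differentiable ℝ (deriv φ) := c1.differentiable (by norm_num)
  have hd : ∀ l x, HasDerivAt (fun x => φ (l - x)) (deriv φ (l - x) * (-1)) x := fun l x =>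
    (d0 _).hasDerivAt.comp x ((hasDerivAt_id x).const_sub l)
  refine ⟨B, by linarith, fun l l' N t => ⟨?_, ?_⟩⟩
  · refine sum_le_Maj (g := fun x => φ (l - x)) (fun x => (hd l x).differentiableAt)
      (fun x => b0.bd _) (fun x => ?_) N t
    rw [(hd l x).deriv, mul_neg_one, abs_neg]
    exact b1.bd _
  · have e : P φ l N t - P φ l' N t = ∑ n ∈ Icc 1 N,
        ((φ (l - Real.log n) - φ (l' - Real.log n) : ℝ) : ℂ) * dir n t := by
      rw [P, P, ← sum_sub_distrib]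
      exact sum_congr rfl fun n _ => by push_cast; ring
    rw [e]
    refine sum_le_Maj (g := fun x => φ (l - x) - φ (l' - x))
      (fun x => ((hd l x).sub (hd l' x)).differentiableAt) (fun x => ?_) (fun x => ?_) N t
    · have := lip_le d0 b1.bd (l' - x) (l - x)
      rwa [sub_sub_sub_cancel_right] at this
    · have h := lip_le d1 b2.bd (l' - x) (l - x)
      rw [sub_sub_sub_cancel_right] at h
      have e2 : deriv (fun x => φ (l - x) - φ (l' - x)) x =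
          -(deriv φ (l - x) - deriv φ (l' - x)) := ((hd l x).sub (hd l' x)).deriv.trans (by ring)
      rw [e2, abs_neg]
      exact h

theorem wsum_sq (s : Finset ℕ) (w x : ℕ → ℝ) (hw : ∀ i ∈ s, 0 ≤ w i) :
    (∑ i ∈ s, w i * x i) ^ 2 ≤ (∑ i ∈ s, w i) * ∑ i ∈ s, w i * x i ^ 2 :=
  sum_sq_le_sum_mul_sum_of_sq_le_mul s hw (fun i hi => mul_nonneg (hw i hi) (sq_nonneg _))
    fun i _ => le_of_eq (by ring)

theorem wsum_four (s : Finset ℕ) (w x : ℕ → ℝ) (hw : ∀ i ∈ s, 0 ≤ w i) :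
    (∑ i ∈ s, w i * x i) ^ 4 ≤ (∑ i ∈ s, w i) ^ 3 * ∑ i ∈ s, w i * x i ^ 4 := by
  have hW : 0 ≤ ∑ i ∈ s, w i := sum_nonneg hw
  calc _ = ((∑ i ∈ s, w i * x i) ^ 2) ^ 2 := by ring
    _ ≤ ((∑ i ∈ s, w i) * ∑ i ∈ s, w i * x i ^ 2) ^ 2 :=
        pow_le_pow_left₀ (sq_nonneg _) (wsum_sq s w x hw) 2
    _ = (∑ i ∈ s, w i) ^ 2 * (∑ i ∈ s, w i * x i ^ 2) ^ 2 := mul_pow _ _ _
    _ ≤ (∑ i ∈ s, w i) ^ 2 * ((∑ i ∈ s, w i) * ∑ i ∈ s, w i * (x i ^ 2) ^ 2) :=
        mul_le_mul_of_nonneg_left (wsum_sq s w _ hw) (sq_nonneg _)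
    _ = _ := by simp only [← pow_mul]; ring

theorem S_eq (k : ℕ) (t : ℝ) : S k t = dp k (fun _ => 1) t :=
  sum_congr rfl fun n _ => by simp [dir]

theorem add_four (a b : ℝ) : (a + b) ^ 4 ≤ 8 * (a ^ 4 + b ^ 4) := by
  nlinarith [sq_nonneg (a - b), sq_nonneg (a + b), sq_nonneg (a ^ 2 - b ^ 2),
    mul_nonneg (sq_nonneg (a - b)) (sq_nonneg (a + b)), sq_nonneg ((a - b) ^ 2)]

theorem Maj_four (N : ℕ) (t : ℝ) : (1 + Maj N t) ^ 4 ≤
    8 + 64 * (lg N ^ 3 * ∑ k ∈ Icc 1 N, 1 / (k : ℝ) * ‖S k t‖ ^ 4 + ‖S N t‖ ^ 4) := by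
  have h1 := add_four 1 (Maj N t)
  have h2 := add_four (∑ k ∈ Icc 1 N, ‖S k t‖ / k) ‖S N t‖
  have h3 := wsum_four (Icc 1 N) (fun k => 1 / (k : ℝ)) (fun k => ‖S k t‖) fun _ _ => by positivity
  have e : ∑ k ∈ Icc 1 N, ‖S k t‖ / k = ∑ k ∈ Icc 1 N, 1 / (k : ℝ) * ‖S k t‖ :=
    sum_congr rfl fun k _ => by ring
  have h4 : (∑ k ∈ Icc 1 N, 1 / (k : ℝ)) ^ 3 * ∑ k ∈ Icc 1 N, 1 / (k : ℝ) * ‖S k t‖ ^ 4 ≤
      lg N ^ 3 * ∑ k ∈ Icc 1 N, 1 / (k : ℝ) * ‖S k t‖ ^ 4 := by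
    gcongr
    exact harm_le N
  rw [← e] at h3
  rw [Maj] at h1 ⊢
  linarith

theorem fourth : FourthStmt := by
  intro ε hε
  obtain ⟨C, hC, H⟩ := fourth_moment (ε := ε / 5) (by positivity)
  refine ⟨8 + 128 * (C * (1 + 5 / ε) ^ 4), fun N T1 T2 hT => ?_⟩
  obtain ⟨T, rfl⟩ : ∃ T, T2 = T1 + T := ⟨T2 - T1, by ring⟩
  have hT0 : 0 ≤ T := by linarith
  rw [add_sub_cancel_left]
  set u := ((N : ℝ) + 1) ^ (ε / 5) with hu
  have hu1 : 1 ≤ u := Real.one_le_rpow (by simp) (by positivity)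
  have hN : (N : ℝ) ^ (ε / 5) ≤ u := by rw [hu]; gcongr; linarith
  have hc : ∀ k, Continuous fun t => ‖S k t‖ ^ 4 := fun k => (continuous_S k).norm.pow 4
  have hk : ∀ k ≤ N, ∫ t in T1..T1 + T, ‖S k t‖ ^ 4 ≤ C * (T + N ^ 2) * u := by
    intro k hk
    simp only [S_eq]
    refine (H k _ T1 T hT0 fun _ => by simp).trans ?_
    have : (k : ℝ) ≤ N := by exact_mod_cast hk
    have h2 : (k : ℝ) ^ (ε / 5) ≤ u := le_trans (by gcongr) hN
    gcongr
  have hl := one_le_lg N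
  have hl2 : lg N ≤ (1 + 5 / ε) * u := by
    have h1 := Real.log_le_rpow_div (Nat.cast_nonneg N) (show 0 < ε / 5 by positivity)
    have h2 : (N : ℝ) ^ (ε / 5) / (ε / 5) ≤ u / (ε / 5) := by gcongr
    have h3 : (1 + 5 / ε) * u = u + u / (ε / 5) := by field_simp
    unfold lg
    linarith
  have hc2 : Continuous fun t => ∑ k ∈ Icc 1 N, 1 / (k : ℝ) * ‖S k t‖ ^ 4 :=
    continuous_finsetSum _ fun k _ => continuous_const.mul (hc k)
  have hc3 : Continuous fun t =>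
      lg N ^ 3 * ∑ k ∈ Icc 1 N, 1 / (k : ℝ) * ‖S k t‖ ^ 4 + ‖S N t‖ ^ 4 :=
    (continuous_const.mul hc2).add (hc N)
  refine (intervalIntegral.integral_mono_on hT
    (((continuous_const.add (continuous_Maj N)).pow 4).intervalIntegrable _ _)
    ((continuous_const.add (continuous_const.mul hc3)).intervalIntegrable _ _)
    fun t _ => Maj_four N t).trans ?_
  simp only [Pi.add_apply, Pi.mul_apply]
  rw [intervalIntegral.integral_add (continuous_const.intervalIntegrable _ _)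
      ((hc3.intervalIntegrable _ _).const_mul _), intervalIntegral.integral_const_mul,
    intervalIntegral.integral_add ((hc2.intervalIntegrable _ _).const_mul _)
      ((hc N).intervalIntegrable _ _), intervalIntegral.integral_const_mul,
    intervalIntegral.integral_finsetSum fun k _ =>
      ((hc k).intervalIntegrable _ _).const_mul _]
  simp only [intervalIntegral.integral_const_mul, intervalIntegral.integral_const, smul_eq_mul,
    add_sub_cancel_left]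
  set Y := C * (T + N ^ 2) * u with hY
  have hY0 : 0 ≤ Y := by positivity
  have h1 : ∑ k ∈ Icc 1 N, 1 / (k : ℝ) * ∫ t in T1..T1 + T, ‖S k t‖ ^ 4 ≤ lg N * Y := by
    calc _ ≤ ∑ k ∈ Icc 1 N, 1 / (k : ℝ) * Y :=
          sum_le_sum fun k hk' => mul_le_mul_of_nonneg_left (hk k (mem_Icc.mp hk').2)
            (by positivity)
      _ ≤ _ := by rw [← sum_mul]; gcongr; exact harm_le N
  have h2 : Y ≤ lg N ^ 3 * (lg N * Y) := by
    rw [← mul_assoc, ← pow_succ]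
    exact le_mul_of_one_le_left hY0 (one_le_pow₀ hl)
  have h3 : ((N : ℝ) + 1) ^ ε = u ^ 5 := by
    rw [hu, ← Real.rpow_natCast, ← Real.rpow_mul (by positivity)]; congr 1; push_cast; ring
  have h4 : lg N ^ 3 * (lg N * Y) ≤ C * (1 + 5 / ε) ^ 4 * (u ^ 5 * (T + N ^ 2)) := by
    calc _ ≤ ((1 + 5 / ε) * u) ^ 3 * (((1 + 5 / ε) * u) * Y) := by gcongr
      _ = _ := by rw [hY]; ring
  have h5 : T ≤ u ^ 5 * (T + N ^ 2) :=
    (le_add_of_nonneg_right (sq_nonneg _)).trans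
      (le_mul_of_one_le_left (by positivity) (one_le_pow₀ hu1))
  have h6 := mul_le_mul_of_nonneg_left h1 (show 0 ≤ lg N ^ 3 by positivity)
  have h7 := hk N le_rfl
  rw [h3]
  nlinarith

end Pool.Agent.MP_74e98a_nt.H75
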