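import Pool.Agent.MP_74e98a_nt.H75.Bil
import Pool.Agent.MP_74e98a_nt.H25.Div

/-! The unbalanced ranges of the triple sum. -/

open Finset Complex

namespace Pool.Agent.MP_74e98a_nt.H75

/-- the triple sum with arbitrary weights -/
noncomputable def tri (sig lam : ℝ) (p1 p2 p3 : ℕ → ℝ) (N : ℕ) : ℂ :=
  ∑ a ∈ Icc 1 N, ∑ b ∈ Icc 1 N, ∑ c ∈ Icc 1 N,
    ((p1 a * p2 b * p3 c / Real.sqrt ((a : ℝ) * b * c) : ℝ) : ℂ) * ker sig lam ((a : ℝ) * b / c)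

theorem sum_indep {f : ℕ → ℂ} {Y : ℝ} {N N' : ℕ} (h : ∀ n : ℕ, Y < n → f n = 0) (hN : Y ≤ N)
    (hN' : Y ≤ N') : ∑ n ∈ Icc 1 N, f n = ∑ n ∈ Icc 1 N', f n := by
  wlog H : N ≤ N' generalizing N N'
  · exact (this hN' hN (le_of_not_ge H)).symm
  refine sum_subset (Icc_subset_Icc_right H) fun n hn hn' => h n (hN.trans_lt ?_)
  simp only [mem_Icc] at hn hn'
  exact_mod_cast (show N < n by omega)

theorem tri_indep (sig lam : ℝ) {p1 p2 p3 : ℕ → ℝ} {Y : ℝ} {N N' : ℕ}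
    (h1 : ∀ n : ℕ, Y < n → p1 n = 0) (h2 : ∀ n : ℕ, Y < n → p2 n = 0)
    (h3 : ∀ n : ℕ, Y < n → p3 n = 0) (hN : Y ≤ N) (hN' : Y ≤ N') :
    tri sig lam p1 p2 p3 N = tri sig lam p1 p2 p3 N' := by
  unfold tri
  rw [sum_indep (fun n hn => by simp [h1 n hn]) hN hN']
  refine sum_congr rfl fun a _ => ?_
  rw [sum_indep (fun n hn => by simp [h2 n hn]) hN hN']
  refine sum_congr rfl fun b _ => ?_
  exact sum_indep (fun n hn => by simp [h3 n hn]) hN hN'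

theorem norm_ker (sig lam : ℝ) {x : ℝ} (hx : 0 ≤ x) :
    ‖ker sig lam x‖ = x * Real.exp (-(Real.pi * sig * x ^ 2)) := by
  rw [ker, norm_mul, norm_real, Real.norm_eq_abs, abs_of_nonneg hx, Complex.norm_exp]
  congr 2
  simp [← ofReal_pow]

theorem unbal_aux {K sig lam ℒ D X0 τ : ℝ} (N M : ℕ) (hK : 2 ≤ K) (hs : 1 / (4 * K ^ 2) ≤ sig)
    (hl1 : 1 / 2 ≤ lam) (hl2 : lam ≤ 3 / 2) (p1 p2 p3 : ℕ → ℝ) (h1 : ∀ n, |p1 n| ≤ 1)
    (h2 : ∀ n, |p2 n| ≤ 1) (h3 : ∀ n, |p3 n| ≤ 1) (hM : lg M ≤ ℒ) (hN : lg N ≤ ℒ) (hD0 : 0 ≤ D)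
    (hD : ∀ m < M, (m.divisors.card : ℝ) ≤ D) (hτ0 : 0 ≤ τ)
    (hτ : ∀ x, X0 ≤ x → ‖ker sig lam x‖ ≤ τ)
    (h : ∀ a b c : ℕ, 1 ≤ a → 1 ≤ b → 1 ≤ c → p1 a ≠ 0 → p2 b ≠ 0 → p3 c ≠ 0 →
      a * b < M ∨ X0 ≤ (a : ℝ) * b / c) :
    ‖tri sig lam p1 p2 p3 N‖ ≤
      D * (10 * ℒ ^ 2 * √(K ^ 2 * M + K ^ 2 * √M * N + M * K * N)) + N ^ 3 * τ := by
  rw [tri, ← sum_product', ← sum_filter_add_sum_filter_not _ (fun p : ℕ × ℕ => p.1 * p.2 < M)]
  refine (norm_add_le _ _).trans (add_le_add ?_ ?_)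
  · refine (norm_sum_le _ _).trans (le_trans (sum_le_sum fun p hp => ?_)
      (bil_le N M N hK hs hl1 hl2 p3 h3 hM hN hD0 hD))
    have e : ∑ c ∈ Icc 1 N, ((p1 p.1 * p2 p.2 * p3 c / √((p.1 : ℝ) * p.2 * c) : ℝ) : ℂ) *
        ker sig lam ((p.1 : ℝ) * p.2 / c) =
        ((p1 p.1 * p2 p.2 / √((p.1 * p.2 : ℕ) : ℝ) : ℝ) : ℂ) * inn sig lam p3 N (p.1 * p.2) := by
      rw [inn, mul_sum]
      refine sum_congr rfl fun c _ => ?_
      rw [← mul_assoc, ← ofReal_mul, Real.sqrt_mul (by positivity), Nat.cast_mul,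
        div_mul_div_comm]
    rw [e, norm_mul, norm_real, Real.norm_eq_abs, abs_div, abs_mul,
      abs_of_nonneg (Real.sqrt_nonneg _), div_mul_eq_mul_div]
    gcongr
    exact mul_le_of_le_one_left (norm_nonneg _) (mul_le_one₀ (h1 _) (abs_nonneg _) (h2 _))
  · refine (norm_sum_le _ _).trans ?_
    calc _ ≤ ∑ p ∈ (Icc 1 N ×ˢ Icc 1 N).filter (fun p : ℕ × ℕ => ¬ p.1 * p.2 < M), N * τ := by
          refine sum_le_sum fun p hp => (norm_sum_le _ _).trans ?_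
          have hp1 := mem_product.mp (mem_filter.mp hp).1
          have ha := (mem_Icc.mp hp1.1).1
          have hb := (mem_Icc.mp hp1.2).1
          calc _ ≤ ∑ c ∈ Icc 1 N, τ := by
                refine sum_le_sum fun c hc => ?_
                have hc := (mem_Icc.mp hc).1
                by_cases h0 : p1 p.1 * p2 p.2 * p3 c = 0
                · simp [h0, hτ0]
                simp only [mul_eq_zero, not_or] at h0
                have hx := (h p.1 p.2 c ha hb hc h0.1.1 h0.1.2 h0.2).resolve_left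
                  (mem_filter.mp hp).2
                rw [norm_mul, norm_real, Real.norm_eq_abs, abs_div, abs_mul, abs_mul,
                  abs_of_nonneg (Real.sqrt_nonneg _), ← one_mul τ]
                refine mul_le_mul ?_ (hτ _ hx) (norm_nonneg _) zero_le_one
                have h4 : (1 : ℝ) ≤ √((p.1 : ℝ) * p.2 * c) := by
                  rw [Real.one_le_sqrt]
                  exact_mod_cast (show 1 ≤ p.1 * p.2 * c from Nat.succ_le_of_lt (by positivity))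
                exact (div_le_one (by linarith)).mpr ((mul_le_one₀ (mul_le_one₀ (h1 _)
                  (abs_nonneg _) (h2 _)) (abs_nonneg _) (h3 _)).trans h4)
            _ = N * τ := by simp
      _ ≤ ∑ p ∈ Icc 1 N ×ˢ Icc 1 N, N * τ :=
          sum_le_sum_of_subset_of_nonneg (filter_subset _ _) fun _ _ _ => by positivity
      _ = _ := by simp; ring

theorem ker_tail {δ : ℝ} (hδ : 0 < δ) : ∃ C : ℝ, 0 ≤ C ∧ ∀ K sig lam x : ℝ, 2 ≤ K →
    1 / (4 * K ^ 2) ≤ sig → K ^ (1 + δ) ≤ x → ‖ker sig lam x‖ ≤ C / K ^ 2 := by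
  obtain ⟨j, hj⟩ := exists_nat_ge (2 / δ)
  refine ⟨((j + 1).factorial : ℝ) * 2 ^ (j + 1), by positivity, fun K sig lam x hK hs hx => ?_⟩
  have hK0 : 0 < K := by linarith
  have hx0 : 0 < x := lt_of_lt_of_le (by positivity) hx
  rw [norm_ker sig lam hx0.le]
  have h1 : x ^ 2 / (2 * K ^ 2) ≤ Real.pi * sig * x ^ 2 := by
    have := Real.two_le_pi
    calc _ = 2 * (1 / (4 * K ^ 2)) * x ^ 2 := by field_simp; ring
      _ ≤ _ := by gcongr
  have h2 := Real.pow_div_factorial_le_exp (x ^ 2 / (2 * K ^ 2)) (by positivity) (j + 1)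
  have h3 : K ^ (2 * j + 4) ≤ x ^ (2 * j + 1) := by
    refine le_trans ?_ (pow_le_pow_left₀ (by positivity) hx _)
    rw [← Real.rpow_natCast, ← Real.rpow_natCast, ← Real.rpow_mul hK0.le]
    refine Real.rpow_le_rpow_of_exponent_le (by linarith) ?_
    rw [div_le_iff₀ hδ] at hj
    push_cast
    nlinarith
  have h4 : Real.exp (-(Real.pi * sig * x ^ 2)) ≤
      ((x ^ 2 / (2 * K ^ 2)) ^ (j + 1) / (j + 1).factorial)⁻¹ := by
    rw [Real.exp_neg]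
    exact inv_anti₀ (by positivity) (h2.trans (Real.exp_le_exp.mpr h1))
  calc _ ≤ x * ((x ^ 2 / (2 * K ^ 2)) ^ (j + 1) / (j + 1).factorial)⁻¹ := by gcongr
    _ = ((j + 1).factorial : ℝ) * 2 ^ (j + 1) / K ^ 2 * (K ^ (2 * j + 4) / x ^ (2 * j + 1)) := by
        rw [div_pow, mul_pow]
        field_simp
        ring
    _ ≤ _ := mul_le_of_le_one_right (by positivity) ((div_le_one (by positivity)).mpr h3)

theorem unbal {η : ℝ} (hη : 0 < η) (hη1 : η ≤ 1) : ∃ C : ℝ, ∀ (K sig lam : ℝ) (N : ℕ)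
    (p1 p2 p3 : ℕ → ℝ), 2 ≤ K → 1 / (4 * K ^ 2) ≤ sig → 1 / 2 ≤ lam → lam ≤ 3 / 2 →
    (N : ℝ) ≤ 2 * Real.exp 12 * K → (∀ n, |p1 n| ≤ 1) → (∀ n, |p2 n| ≤ 1) → (∀ n, |p3 n| ≤ 1) →
    (∀ a b c : ℕ, 1 ≤ a → 1 ≤ b → 1 ≤ c → p1 a ≠ 0 → p2 b ≠ 0 → p3 c ≠ 0 →
      (a : ℝ) * b < Real.exp 12 * K ^ (2 - η / 2) ∨ K ^ (1 + η / 2) ≤ (a : ℝ) * b / c) →
    ‖tri sig lam p1 p2 p3 N‖ ≤ C * K ^ (2 - η / 16) := by
  obtain ⟨C1, hC1, htail⟩ := ker_tail (δ := η / 2) (by positivity)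
  set ε := η / 96 with hε
  have hε0 : 0 < ε := by positivity
  obtain ⟨C2, hC2, hdiv⟩ := H25.divisor_bound ε hε0
  set A := 2 * Real.exp 12 with hA
  have hE : 1 ≤ Real.exp 12 := Real.one_le_exp (by norm_num)
  have hA1 : 1 ≤ A := by linarith
  refine ⟨C2 * A ^ ε * (10 * ((1 + 1 / ε) * A ^ ε) ^ 2 * (2 * A)) + A ^ 3 * C1,
    fun K sig lam N p1 p2 p3 hK hs hl1 hl2 hN h1 h2 h3 h => ?_⟩
  have hK0 : 0 < K := by linarith
  have hK1 : 1 ≤ K := by linarith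
  have mono : ∀ {a b : ℝ}, a ≤ b → K ^ a ≤ K ^ b := fun h => Real.rpow_le_rpow_of_exponent_le hK1 h
  set M := ⌈Real.exp 12 * K ^ (2 - η / 2)⌉₊ with hM
  have hu : 1 ≤ K ^ (2 - η / 2) := Real.one_le_rpow hK1 (by linarith)
  have hM1 : (M : ℝ) ≤ A * K ^ (2 - η / 2) := by
    have := (Nat.ceil_lt_add_one (show 0 ≤ Real.exp 12 * K ^ (2 - η / 2) by positivity)).le
    have h5 : 1 ≤ Real.exp 12 * K ^ (2 - η / 2) := one_le_mul_of_one_le_of_one_le hE hu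
    rw [hA]; linarith
  have hK2 : K ^ (2 : ℝ) = K ^ 2 := by exact_mod_cast Real.rpow_natCast K 2
  have hM2 : (M : ℝ) ≤ A * K ^ (2 : ℝ) := hM1.trans (by gcongr; linarith)
  have hN2 : (N : ℝ) ≤ A * K ^ (2 : ℝ) := hN.trans (by rw [hK2]; gcongr; nlinarith)
  have hY : (A * K ^ (2 : ℝ)) ^ ε = A ^ ε * K ^ (2 * ε) := by
    rw [Real.mul_rpow (by positivity) (by positivity), ← Real.rpow_mul hK0.le]
  have hY1 : 1 ≤ A ^ ε * K ^ (2 * ε) := one_le_mul_of_one_le_of_one_le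
    (Real.one_le_rpow hA1 hε0.le) (Real.one_le_rpow hK1 (by positivity))
  have hlg : ∀ n : ℕ, (n : ℝ) ≤ A * K ^ (2 : ℝ) → lg n ≤ (1 + 1 / ε) * (A ^ ε * K ^ (2 * ε)) := by
    intro n hn
    have h5 := Real.log_le_rpow_div (Nat.cast_nonneg n) hε0
    have h6 : (n : ℝ) ^ ε ≤ A ^ ε * K ^ (2 * ε) := by rw [← hY]; gcongr
    have h7 : (n : ℝ) ^ ε / ε ≤ A ^ ε * K ^ (2 * ε) / ε := by gcongr
    unfold lg
    have h8 : (1 + 1 / ε) * (A ^ ε * K ^ (2 * ε)) =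
      A ^ ε * K ^ (2 * ε) + A ^ ε * K ^ (2 * ε) / ε := by ring
    linarith
  have hD : ∀ m < M, (m.divisors.card : ℝ) ≤ C2 * (A ^ ε * K ^ (2 * ε)) := by
    intro m hm
    refine (hdiv m).trans ?_
    rw [← hY]
    have : (m : ℝ) ≤ A * K ^ (2 : ℝ) := le_trans (by exact_mod_cast hm.le) hM2
    gcongr
  refine (unbal_aux N M hK hs hl1 hl2 p1 p2 p3 h1 h2 h3 (hlg M hM2) (hlg N hN2) (by positivity) hD
    (τ := C1 / K ^ 2) (by positivity) (fun x hx => htail K sig lam x hK hs hx)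
    fun a b c ha hb hc h4 h5 h6 => (h a b c ha hb hc h4 h5 h6).imp_left fun h7 => ?_).trans ?_
  · have := h7.trans_le (Nat.le_ceil _)
    exact_mod_cast this
  set v := K ^ (1 - η / 8) with hv
  have hv0 : 0 < v := by positivity
  have hv1 : K ^ (2 - η / 2) ≤ v ^ 2 := by
    rw [hv, ← Real.rpow_natCast, ← Real.rpow_mul hK0.le]
    exact mono (by push_cast; linarith)
  have hv2 : √(M : ℝ) * K ≤ A * v ^ 2 := by
    have h5 : √(M : ℝ) ≤ A * K ^ (1 - η / 4) := by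
      rw [Real.sqrt_le_left (by positivity), mul_pow, ← Real.rpow_natCast (K ^ _),
        ← Real.rpow_mul hK0.le, show (1 - η / 4) * ((2 : ℕ) : ℝ) = 2 - η / 2 by push_cast; ring]
      refine hM1.trans ?_
      gcongr
      nlinarith
    have h6 : K ^ (1 - η / 4) * K = v ^ 2 := by
      rw [hv, ← Real.rpow_natCast, ← Real.rpow_mul hK0.le, ← Real.rpow_add_one hK0.ne']
      congr 1; push_cast; ring
    calc _ ≤ A * K ^ (1 - η / 4) * K := by gcongr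
      _ = _ := by rw [mul_assoc, h6]
  have hM3 : (M : ℝ) ≤ A * v ^ 2 := hM1.trans (by gcongr)
  have hsq : √(K ^ 2 * M + K ^ 2 * √M * N + M * K * N) ≤ 2 * A * (K * v) := by
    rw [Real.sqrt_le_left (by positivity)]
    have t1 : K ^ 2 * M ≤ A ^ 2 * (K * v) ^ 2 := by
      calc _ ≤ K ^ 2 * (A * v ^ 2) := by gcongr
        _ = A * (K * v) ^ 2 := by ring
        _ ≤ _ := by gcongr; nlinarith
    have t2 : K ^ 2 * √M * N ≤ A ^ 2 * (K * v) ^ 2 := by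
      calc _ ≤ K ^ 2 * √M * (A * K) := by gcongr
        _ = K ^ 2 * A * (√M * K) := by ring
        _ ≤ K ^ 2 * A * (A * v ^ 2) := by gcongr
        _ = _ := by ring
    have t3 : M * K * N ≤ A ^ 2 * (K * v) ^ 2 := by
      calc _ ≤ (A * v ^ 2) * K * (A * K) := by gcongr
        _ = _ := by ring
    have t4 : 0 ≤ A ^ 2 * (K * v) ^ 2 := by positivity
    nlinarith
  have hfin : K ^ (2 * ε) * (K ^ (2 * ε)) ^ 2 * (K * v) = K ^ (2 - η / 16) := by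
    rw [hv, ← pow_succ', ← Real.rpow_natCast, ← Real.rpow_mul hK0.le, mul_comm K,
      ← Real.rpow_add_one hK0.ne', ← Real.rpow_add hK0, hε]
    congr 1; push_cast; ring
  have hKle : K ≤ K ^ (2 - η / 16) := by
    conv_lhs => rw [← Real.rpow_one K]
    exact mono (by linarith)
  refine le_trans (add_le_add ?_ ?_) (add_mul _ _ _).ge
  · calc _ ≤ C2 * (A ^ ε * K ^ (2 * ε)) * (10 * ((1 + 1 / ε) * (A ^ ε * K ^ (2 * ε))) ^ 2 *
          (2 * A * (K * v))) := by gcongr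
      _ = _ := by rw [← hfin]; ring
  · calc _ ≤ (A * K) ^ 3 * (C1 / K ^ 2) := by gcongr
      _ = A ^ 3 * C1 * K := by field_simp
      _ ≤ _ := by gcongr

end Pool.Agent.MP_74e98a_nt.H75
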