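import Mathlib

/-! Weyl's inequality for quadratic exponential sums with a small coefficient. -/

open Finset Complex

namespace Pool.Agent.MP_74e98a_nt.H75

/-- `1 + log M` -/
noncomputable def lg (M : ℕ) : ℝ := 1 + Real.log M

theorem one_le_lg (M : ℕ) : 1 ≤ lg M := by
  have := Real.log_natCast_nonneg M
  unfold lg; linarith

theorem lg_mono {M N : ℕ} (h : M ≤ N) : lg M ≤ lg N := by
  unfold lg
  rcases Nat.eq_zero_or_pos M with rfl | hM
  · have := Real.log_natCast_nonneg N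
    simpa using this
  · have := Real.log_le_log (by exact_mod_cast hM) (show (M : ℝ) ≤ N by exact_mod_cast h)
    linarith

theorem harm_le (M : ℕ) : ∑ j ∈ Icc 1 M, (1 : ℝ) / j ≤ lg M := by
  have h := harmonic_le_one_add_log M
  rw [harmonic_eq_sum_Icc] at h
  push_cast at h
  simpa [lg] using h

theorem harm_inj (M : ℕ) (s : Finset ℕ) (f : ℕ → ℕ) (hf : Set.InjOn f s)
    (hm : ∀ d ∈ s, f d ∈ Icc 1 M) : ∑ d ∈ s, (1 : ℝ) / f d ≤ lg M := by
  rw [← sum_image (f := fun j : ℕ => (1 : ℝ) / j) hf]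
  refine le_trans (sum_le_sum_of_subset_of_nonneg ?_ fun _ _ _ => by positivity) (harm_le M)
  intro j hj
  obtain ⟨d, hd, rfl⟩ := mem_image.mp hj
  exact hm d hd

theorem harm_around (M : ℕ) (s : Finset ℕ) (d0 : ℕ) (hs : ∀ d ∈ s, d ≤ M) (h0 : d0 ≤ M) :
    ∑ d ∈ s, (1 : ℝ) / |(d : ℝ) - d0| ≤ 2 * lg M := by
  rw [← sum_filter_add_sum_filter_not s (fun d => d < d0),
    ← sum_filter_add_sum_filter_not (s.filter fun d => ¬ d < d0) (fun d => d0 < d)]
  have h1 : ∑ d ∈ s.filter (fun d => d < d0), (1 : ℝ) / |(d : ℝ) - d0| ≤ lg M := by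
    refine le_trans (le_of_eq (sum_congr rfl fun d hd => ?_))
      (harm_inj M (s.filter fun d => d < d0) (fun d => d0 - d) ?_ ?_)
    · have := (mem_filter.mp hd).2
      rw [Nat.cast_sub this.le, abs_sub_comm, abs_of_nonneg]
      exact sub_nonneg.mpr (by exact_mod_cast this.le)
    · intro a ha b hb hab
      have := (mem_filter.mp ha).2
      have := (mem_filter.mp hb).2
      simp only at hab
      omega
    · intro d hd
      have := (mem_filter.mp hd).2
      simp only [mem_Icc]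
      omega
  have h2 : ∑ d ∈ (s.filter fun d => ¬ d < d0).filter (fun d => d0 < d),
      (1 : ℝ) / |(d : ℝ) - d0| ≤ lg M := by
    refine le_trans (le_of_eq (sum_congr rfl fun d hd => ?_))
      (harm_inj M _ (fun d => d - d0) ?_ ?_)
    · have := (mem_filter.mp hd).2
      rw [Nat.cast_sub this.le, abs_of_nonneg]
      exact sub_nonneg.mpr (by exact_mod_cast this.le)
    · intro a ha b hb hab
      have := (mem_filter.mp ha).2
      have := (mem_filter.mp hb).2
      simp only at hab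
      omega
    · intro d hd
      have := (mem_filter.mp hd).2
      have := hs d (mem_filter.mp (mem_filter.mp hd).1).1
      simp only [mem_Icc]
      omega
  have h3 : ∑ d ∈ (s.filter fun d => ¬ d < d0).filter (fun d => ¬ d0 < d),
      (1 : ℝ) / |(d : ℝ) - d0| = 0 := by
    refine sum_eq_zero fun d hd => ?_
    have h1 := (mem_filter.mp hd).2
    have h2 := (mem_filter.mp (mem_filter.mp hd).1).2
    have : d = d0 := by omega
    simp [this]
  linarith

/-- the majorant of a geometric sum -/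
noncomputable def gm (M : ℕ) (x : ℝ) : ℝ := 2 * M / (1 + 2 * M * |x|)

theorem gm_nonneg (M : ℕ) (x : ℝ) : 0 ≤ gm M x := by unfold gm; positivity

theorem gm_le (M : ℕ) (x : ℝ) : gm M x ≤ 2 * M := by
  unfold gm
  exact div_le_self (by positivity) (by have : 0 ≤ 2 * (M : ℝ) * |x| := by positivity
                                        linarith)

theorem gm_le' (M : ℕ) {x : ℝ} (hx : 0 < |x|) : gm M x ≤ 1 / |x| := by
  unfold gm
  rw [div_le_div_iff₀ (by positivity) hx]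
  linarith

theorem geom_le (M p q : ℕ) (hq : q ≤ M) (γ : ℝ) :
    ‖∑ m ∈ Ico p q, cexp (-(2 * Real.pi * γ : ℝ) * I) ^ m‖ ≤ gm M (γ - round γ) := by
  set ζ := cexp (-(2 * Real.pi * γ : ℝ) * I) with hζ
  have hn : ‖ζ‖ = 1 := by
    rw [hζ, ← ofReal_neg]; exact norm_exp_ofReal_mul_I _
  set x := γ - round γ with hx
  have hx2 : |x| ≤ 1 / 2 := abs_sub_round γ
  have h1 : ‖∑ m ∈ Ico p q, ζ ^ m‖ ≤ M := by
    refine (norm_sum_le _ _).trans ?_
    simp only [norm_pow, hn, one_pow, sum_const, Nat.card_Ico, nsmul_eq_mul, mul_one]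
    exact_mod_cast (Nat.sub_le q p).trans hq
  have h2 : ‖∑ m ∈ Ico p q, ζ ^ m‖ * ‖ζ - 1‖ ≤ 2 := by
    rcases le_total p q with h | h
    · rw [← norm_mul, geom_sum_Ico_mul _ h]
      refine (norm_sub_le _ _).trans ?_
      simp [hn]
      norm_num
    · rw [Ico_eq_empty_of_le h]; simp
  have h3 : 4 * |x| ≤ ‖ζ - 1‖ := by
    have e : ζ = cexp (I * (-(2 * Real.pi * x) : ℝ)) := by
      rw [hζ, hx]
      have := Complex.exp_int_mul_two_pi_mul_I (round γ)
      rw [← mul_one (cexp (-(2 * Real.pi * γ : ℝ) * I)), ← this, ← Complex.exp_add]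
      congr 1
      push_cast
      ring
    rw [e, Complex.norm_exp_I_mul_ofReal_sub_one, Real.norm_eq_abs, abs_mul]
    have h4 : |(-(2 * Real.pi * x)) / 2| = Real.pi * |x| := by
      rw [show (-(2 * Real.pi * x)) / 2 = -(Real.pi * x) by ring, abs_neg, abs_mul,
        abs_of_pos Real.pi_pos]
    have h5 := Real.mul_abs_le_abs_sin (x := (-(2 * Real.pi * x)) / 2)
      (by rw [h4]; nlinarith [Real.pi_pos])
    rw [h4] at h5
    have h6 : 2 / Real.pi * (Real.pi * |x|) = 2 * |x| := by field_simp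
    rw [h6] at h5
    rw [abs_two]
    linarith
  unfold gm
  rw [le_div_iff₀ (by positivity)]
  have h0 := norm_nonneg (∑ m ∈ Ico p q, ζ ^ m)
  have h7 : ‖∑ m ∈ Ico p q, ζ ^ m‖ * (4 * |x|) ≤ 2 :=
    (mul_le_mul_of_nonneg_left h3 h0).trans h2
  have h8 : (0 : ℝ) ≤ M := Nat.cast_nonneg M
  nlinarith

theorem sum_gm_fixed (M : ℕ) {θ : ℝ} (hθ : 0 < θ) (k : ℝ) :
    ∑ d ∈ range M, gm M (θ * (d + 1) - k) ≤ 2 * M + 4 * lg M / θ := by
  have hl := one_le_lg M
  rcases Nat.eq_zero_or_pos M with rfl | hM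
  · simp; positivity
  obtain ⟨d0, hd0, hmin⟩ := exists_min_image (range M) (fun d : ℕ => |θ * (d + 1) - k|)
    ⟨0, mem_range.mpr hM⟩
  rw [← add_sum_erase _ _ hd0]
  refine add_le_add (gm_le _ _) ?_
  have h := harm_around M ((range M).erase d0) d0
    (fun d hd => (mem_range.mp (mem_of_mem_erase hd)).le) (mem_range.mp hd0).le
  calc _ ≤ ∑ d ∈ (range M).erase d0, 2 / θ * (1 / |(d : ℝ) - d0|) := by
        refine sum_le_sum fun d hd => ?_
        have h1 := hmin d (mem_of_mem_erase hd)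
        have h2 : (0 : ℝ) < |(d : ℝ) - d0| := by
          rw [abs_pos, sub_ne_zero]
          exact_mod_cast ne_of_mem_erase hd
        have h3 : θ * |(d : ℝ) - d0| ≤ 2 * |θ * (d + 1) - k| := by
          have e : θ * |(d : ℝ) - d0| = |(θ * (d + 1) - k) - (θ * (d0 + 1) - k)| := by
            rw [show (θ * (d + 1) - k) - (θ * (d0 + 1) - k) = θ * ((d : ℝ) - d0) by ring, abs_mul,
              abs_of_pos hθ]
          rw [e]
          have := abs_sub (θ * (d + 1) - k) (θ * (d0 + 1) - k)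
          linarith
        have h4 : 0 < |θ * (d + 1) - k| := by nlinarith [mul_pos hθ h2]
        refine (gm_le' M h4).trans ?_
        rw [div_mul_div_comm, div_le_div_iff₀ h4 (by positivity)]
        linarith
    _ = 2 / θ * ∑ d ∈ (range M).erase d0, 1 / |(d : ℝ) - d0| := by rw [mul_sum]
    _ ≤ 2 / θ * (2 * lg M) := by gcongr
    _ = 4 * lg M / θ := by ring

theorem sum_gm (M : ℕ) {θ : ℝ} (hθ : 0 < θ) :
    ∑ d ∈ range M, gm M (θ * (d + 1) - round (θ * (d + 1))) ≤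
      (θ * M + 2) * (2 * M + 4 * lg M / θ) := by
  have hl := one_le_lg M
  calc _ ≤ ∑ d ∈ range M, ∑ k ∈ range (⌊θ * M⌋₊ + 2), gm M (θ * (d + 1) - k) := by
        refine sum_le_sum fun d hd => ?_
        have hd' : (d : ℝ) + 1 ≤ M := by exact_mod_cast mem_range.mp hd
        have h1 := abs_sub_round (θ * (d + 1))
        have h0 : 0 < θ * (d + 1) := by positivity
        have h2 : θ * (d + 1) ≤ θ * M := by gcongr
        rw [abs_le] at h1
        have h3 : 0 ≤ round (θ * (d + 1)) := by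
          have : (-1 : ℝ) < round (θ * (d + 1)) := by linarith
          have : (-1 : ℤ) < round (θ * (d + 1)) := by exact_mod_cast this
          omega
        obtain ⟨k, hk⟩ := Int.eq_ofNat_of_zero_le h3
        have hk' : ((round (θ * (d + 1)) : ℤ) : ℝ) = k := by rw [hk]; simp
        rw [hk'] at h1 ⊢
        refine single_le_sum (f := fun k : ℕ => gm M (θ * (d + 1) - k))
          (fun _ _ => gm_nonneg _ _) (mem_range.mpr ?_)
        have h4 := Nat.lt_floor_add_one (θ * M)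
        have : (k : ℝ) < ⌊θ * M⌋₊ + 2 := by linarith
        exact_mod_cast this
    _ = ∑ k ∈ range (⌊θ * M⌋₊ + 2), ∑ d ∈ range M, gm M (θ * (d + 1) - k) := sum_comm
    _ ≤ ∑ k ∈ range (⌊θ * M⌋₊ + 2), (2 * M + 4 * lg M / θ) :=
        sum_le_sum fun k _ => sum_gm_fixed M hθ k
    _ ≤ _ := by
        rw [sum_const, card_range, nsmul_eq_mul]
        have := Nat.floor_le (show 0 ≤ θ * M by positivity)
        push_cast
        gcongr

theorem norm_sq_sum (z : ℕ → ℂ) (j : ℕ) : ‖∑ m ∈ range j, z m‖ ^ 2 = ∑ m ∈ range j, ‖z m‖ ^ 2 +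
    2 * (∑ m ∈ range j, ∑ n ∈ range m, z m * (starRingEnd ℂ) (z n)).re := by
  induction j with
  | zero => simp
  | succ j ih =>
    rw [sum_range_succ, sum_range_succ, sum_range_succ, ← mul_sum, ← map_sum, add_re,
      ← Complex.normSq_eq_norm_sq, add_comm (∑ m ∈ range j, z m), Complex.normSq_add,
      Complex.normSq_eq_norm_sq, Complex.normSq_eq_norm_sq, ih]
    ring

/-- the quadratic phase -/
noncomputable def qz (θ : ℝ) (m : ℕ) : ℂ := cexp (-(Real.pi * θ * (m : ℝ) ^ 2 : ℝ) * I)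

theorem norm_qz (θ : ℝ) (m : ℕ) : ‖qz θ m‖ = 1 := by
  rw [qz, ← ofReal_neg]; exact norm_exp_ofReal_mul_I _

theorem conj_qz (θ : ℝ) (m : ℕ) : (starRingEnd ℂ) (qz θ m) = qz (-θ) m := by
  rw [qz, qz, ← Complex.exp_conj]
  congr 1
  simp only [map_mul, map_neg, conj_ofReal, conj_I]
  push_cast
  ring

theorem weyl_sq (M j : ℕ) (hj : j ≤ M) {θ : ℝ} (hθ : 0 < θ) :
    ‖∑ m ∈ range j, qz θ m‖ ^ 2 ≤ M + 2 * ((θ * M + 2) * (2 * M + 4 * lg M / θ)) := by
  rw [norm_sq_sum]
  refine add_le_add ?_ (mul_le_mul_of_nonneg_left ((re_le_norm _).trans ?_) (by norm_num))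
  · simp only [norm_qz, one_pow, sum_const, card_range, nsmul_eq_mul, mul_one]
    exact_mod_cast hj
  have e1 : ∑ m ∈ range j, ∑ n ∈ range m, qz θ m * (starRingEnd ℂ) (qz θ n) =
      ∑ d ∈ range j, ∑ m ∈ Ico (d + 1) j, qz θ m * (starRingEnd ℂ) (qz θ (m - 1 - d)) := by
    rw [← sum_comm' (s := range j) (t := fun m => range m) (t' := range j)
      (s' := fun d => Ico (d + 1) j)
      (f := fun m d => qz θ m * (starRingEnd ℂ) (qz θ (m - 1 - d)))]
    · refine sum_congr rfl fun m _ => ?_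
      exact (sum_range_reflect (fun n => qz θ m * (starRingEnd ℂ) (qz θ n)) m).symm
    · intro m d
      simp only [mem_range, mem_Ico]
      omega
  rw [e1]
  refine (norm_sum_le _ _).trans (le_trans ?_ (sum_gm M hθ))
  refine le_trans (sum_le_sum fun d _ => ?_) (sum_le_sum_of_subset_of_nonneg
    (range_subset_range.mpr hj) fun _ _ _ => gm_nonneg _ _)
  have e2 : ∑ m ∈ Ico (d + 1) j, qz θ m * (starRingEnd ℂ) (qz θ (m - 1 - d)) =
      qz (-θ) (d + 1) * ∑ m ∈ Ico (d + 1) j,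
        cexp (-(2 * Real.pi * (θ * (d + 1)) : ℝ) * I) ^ m := by
    rw [mul_sum]
    refine sum_congr rfl fun m hm => ?_
    obtain ⟨n, rfl⟩ := Nat.exists_eq_add_of_le (mem_Ico.mp hm).1
    rw [show d + 1 + n - 1 - d = n by omega, conj_qz, qz, qz, qz, ← Complex.exp_nat_mul,
      ← Complex.exp_add, ← Complex.exp_add]
    congr 1
    push_cast
    ring
  rw [e2, norm_mul, norm_qz, one_mul]
  exact geom_le M _ _ hj _

theorem weyl (M j : ℕ) (hj : j ≤ M) {θ : ℝ} (hθ : 0 < θ) :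
    ‖∑ m ∈ range j, qz θ m‖ ≤ 5 * lg M * (√θ * M + √M + 1 / √θ) := by
  have hl := one_le_lg M
  have hM : (0 : ℝ) ≤ M := Nat.cast_nonneg M
  refine (pow_le_pow_iff_left₀ (norm_nonneg _) (by positivity) two_ne_zero).mp
    ((weyl_sq M j hj hθ).trans ?_)
  have h1 : (√θ * M) ^ 2 = θ * M ^ 2 := by rw [mul_pow, Real.sq_sqrt hθ.le]
  have h2 : √(M : ℝ) ^ 2 = M := Real.sq_sqrt hM
  have h3 : (1 / √θ) ^ 2 = 1 / θ := by rw [div_pow, Real.sq_sqrt hθ.le, one_pow]
  have h4 : θ * M ^ 2 + M + 1 / θ ≤ (√θ * M + √M + 1 / √θ) ^ 2 := by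
    have a1 : 0 ≤ √θ * M := by positivity
    have a2 : 0 ≤ √(M : ℝ) := by positivity
    have a3 : 0 ≤ 1 / √θ := by positivity
    nlinarith [mul_nonneg a1 a2, mul_nonneg a1 a3, mul_nonneg a2 a3]
  have h5 : (θ * M + 2) * (2 * M + 4 * lg M / θ) =
      2 * (θ * M ^ 2) + 4 * lg M * M + 4 * M + 8 * lg M * (1 / θ) := by field_simp; ring
  rw [h5, mul_pow]
  refine le_trans ?_ (mul_le_mul_of_nonneg_left h4 (by positivity))
  have b1 : 0 ≤ θ * M ^ 2 := by positivity
  have b2 : 0 ≤ 1 / θ := by positivity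
  have b3 : lg M ≤ lg M ^ 2 := by nlinarith
  have b4 : 1 ≤ lg M ^ 2 := by nlinarith
  nlinarith [mul_le_mul_of_nonneg_right b4 b1, mul_le_mul_of_nonneg_right b4 hM,
    mul_le_mul_of_nonneg_right b3 hM, mul_le_mul_of_nonneg_right b3 b2,
    mul_le_mul_of_nonneg_right b4 b2]

theorem abel_le (w : ℕ → ℝ) (z : ℕ → ℂ) (M : ℕ) (B : ℝ)
    (h : ∀ j ≤ M, ‖∑ m ∈ range j, z m‖ ≤ B) :
    ‖∑ m ∈ range M, (w m : ℂ) * z m‖ ≤ (|w M| + ∑ m ∈ range M, |w (m + 1) - w m|) * B := by
  have e : ∀ n, ∑ m ∈ range n, (w m : ℂ) * z m = w n * ∑ m ∈ range n, z m -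
      ∑ m ∈ range n, ((w (m + 1) - w m : ℝ) : ℂ) * ∑ i ∈ range (m + 1), z i := by
    intro n
    induction n with
    | zero => simp
    | succ n ih =>
      rw [sum_range_succ, ih, sum_range_succ (fun m => ((w (m + 1) - w m : ℝ) : ℂ) *
        ∑ i ∈ range (m + 1), z i), sum_range_succ z n]
      push_cast
      ring
  rw [e, add_mul, sum_mul]
  refine (norm_sub_le _ _).trans (add_le_add ?_ ((norm_sum_le _ _).trans (sum_le_sum ?_)))
  · rw [norm_mul, norm_real, Real.norm_eq_abs]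
    exact mul_le_mul_of_nonneg_left (h M le_rfl) (abs_nonneg _)
  · intro m hm
    rw [norm_mul, norm_real, Real.norm_eq_abs]
    exact mul_le_mul_of_nonneg_left (h _ (mem_range.mp hm)) (abs_nonneg _)

/-- the weight `m ^ 2 exp(-β m ^ 2)` -/
noncomputable def om (β : ℝ) (m : ℕ) : ℝ := (m : ℝ) ^ 2 * Real.exp (-(β * (m : ℝ) ^ 2))

theorem om_nonneg (β : ℝ) (m : ℕ) : 0 ≤ om β m := by unfold om; positivity

theorem om_le {β : ℝ} (hβ : 0 < β) (m : ℕ) : om β m ≤ 1 / β := by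
  unfold om
  have h := Real.add_one_le_exp (β * (m : ℝ) ^ 2)
  rw [Real.exp_neg, ← div_eq_mul_inv, div_le_div_iff₀ (Real.exp_pos _) hβ]
  nlinarith

theorem om_le' {β : ℝ} (hβ : 0 < β) (m : ℕ) : om β m ≤ (m : ℝ) ^ 2 := by
  unfold om
  have : Real.exp (-(β * (m : ℝ) ^ 2)) ≤ 1 := Real.exp_le_one_iff.mpr (by
    have : 0 ≤ β * (m : ℝ) ^ 2 := by positivity
    linarith)
  nlinarith [sq_nonneg (m : ℝ)]

theorem anti_aux {x y : ℝ} (hx : 0 ≤ x) (h : x ≤ y) :
    (1 + y) * Real.exp (-y) ≤ (1 + x) * Real.exp (-x) := by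
  have h1 := Real.add_one_le_exp (y - x)
  have h2 : Real.exp (-x) = Real.exp (y - x) * Real.exp (-y) := by
    rw [← Real.exp_add]; congr 1; ring
  rw [h2, ← mul_assoc]
  refine mul_le_mul_of_nonneg_right ?_ (Real.exp_pos _).le
  nlinarith

theorem tv_om {β : ℝ} (hβ : 0 < β) (M : ℕ) : ∑ m ∈ range M, |om β (m + 1) - om β m| ≤
    2 / β * (1 - Real.exp (-(β * (M : ℝ) ^ 2))) := by
  set A : ℕ → ℝ := fun m => (1 + β * (m : ℝ) ^ 2) * Real.exp (-(β * (m : ℝ) ^ 2)) / β with hA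
  set B : ℕ → ℝ := fun m => Real.exp (-(β * (m : ℝ) ^ 2)) / β with hB
  have h1 : ∀ m, om β m = A m - B m := fun m => by
    simp only [hA, hB, om]; field_simp; ring
  calc _ ≤ ∑ m ∈ range M, ((A m + B m) - (A (m + 1) + B (m + 1))) := by
        refine sum_le_sum fun m _ => ?_
        have h2 : β * (m : ℝ) ^ 2 ≤ β * ((m + 1 : ℕ) : ℝ) ^ 2 := by
          gcongr; exact Nat.le_succ m
        have h3 : A (m + 1) ≤ A m :=
          div_le_div_of_nonneg_right (anti_aux (by positivity) h2) hβ.le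
        have h4 : B (m + 1) ≤ B m :=
          div_le_div_of_nonneg_right (Real.exp_le_exp.mpr (by linarith)) hβ.le
        rw [h1, h1, abs_le]
        constructor <;> linarith
    _ = (A 0 + B 0) - (A M + B M) := sum_range_sub' (fun m => A m + B m) M
    _ ≤ _ := by
        simp only [hA, hB, Nat.cast_zero]
        have h5 : 0 ≤ β * (M : ℝ) ^ 2 * Real.exp (-(β * (M : ℝ) ^ 2)) / β := by positivity
        have h6 : (1 + β * (M : ℝ) ^ 2) * Real.exp (-(β * (M : ℝ) ^ 2)) / β =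
          Real.exp (-(β * (M : ℝ) ^ 2)) / β +
            β * (M : ℝ) ^ 2 * Real.exp (-(β * (M : ℝ) ^ 2)) / β := by ring
        rw [h6]
        have h7 : 2 / β * (1 - Real.exp (-(β * (M : ℝ) ^ 2))) =
          1 / β + 1 / β - 2 * (Real.exp (-(β * (M : ℝ) ^ 2)) / β) := by ring
        rw [h7]
        simp
        linarith

theorem weyl_om (M : ℕ) {β θ V : ℝ} (hβ : 0 < β) (hθ : 0 < θ)
    (hV : V = 1 / β ∨ V = (M : ℝ) ^ 2) :
    ‖∑ m ∈ range M, (om β m : ℂ) * qz θ m‖ ≤ 3 * V * (5 * lg M * (√θ * M + √M + 1 / √θ)) := by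
  have hl := one_le_lg M
  refine (abel_le _ _ M _ fun j hj => weyl M j hj hθ).trans
    (mul_le_mul_of_nonneg_right ?_ (by positivity))
  rw [abs_of_nonneg (om_nonneg _ _)]
  have h := tv_om hβ M
  rcases hV with rfl | rfl
  · have h1 := om_le hβ M
    have h2 : 2 / β * (1 - Real.exp (-(β * (M : ℝ) ^ 2))) ≤ 2 * (1 / β) := by
      have := Real.exp_pos (-(β * (M : ℝ) ^ 2))
      have h3 : 0 < 2 / β := by positivity
      have h4 : 2 * (1 / β) = 2 / β * 1 := by ring
      rw [h4]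
      gcongr
      linarith
    linarith
  · have h1 := om_le' hβ M
    have h2 : 2 / β * (1 - Real.exp (-(β * (M : ℝ) ^ 2))) ≤ 2 * (M : ℝ) ^ 2 := by
      have := Real.add_one_le_exp (-(β * (M : ℝ) ^ 2))
      have h4 : 2 * (M : ℝ) ^ 2 = 2 / β * (β * (M : ℝ) ^ 2) := by field_simp
      rw [h4]
      gcongr
      linarith
    linarith

end Pool.Agent.MP_74e98a_nt.H75
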